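import Pool.Agent.Work.MP_c709de_al.Defs

/-! Basic facts on `presRank`, `rho`. -/

namespace MPc709de

open Finset

section presRank

variable {M N : Type*} [AddCommMonoid M] [AddCommMonoid N]

/-- A finite set of pairs generates the kernel congruence. -/
def GenKer (f : M →+ ℕ) (R : Finset (M × M)) : Prop :=
  addConGen (fun a b => (a, b) ∈ R) = AddCon.ker f

theorem presRank_le {f : M →+ ℕ} {R : Finset (M × M)} (h : GenKer f R) :
    presRank f ≤ R.card := Nat.sInf_le ⟨R, rfl, h⟩

theorem le_presRank {f : M →+ ℕ} {n : ℕ} (hne : ∃ R, GenKer f R)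
    (h : ∀ R, GenKer f R → n ≤ R.card) : n ≤ presRank f := by
  obtain ⟨R, hR⟩ := hne
  refine le_csInf ⟨R.card, R, rfl, hR⟩ ?_
  rintro k ⟨R', rfl, hR'⟩
  exact h R' hR'

open Classical in
theorem GenKer.comp_equiv {f : N →+ ℕ} (E : M ≃+ N) {R : Finset (N × N)} (h : GenKer f R) :
    GenKer (f.comp E.toAddMonoidHom)
      (R.map ⟨fun p => (E.symm p.1, E.symm p.2), fun p q hpq => by
        simp only [Prod.mk.injEq, EmbeddingLike.apply_eq_iff_eq] at hpq
        exact Prod.ext hpq.1 hpq.2⟩) := by
  unfold GenKer at *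
  apply le_antisymm
  · rw [AddCon.addConGen_le]
    intro a b hab
    simp only [Finset.mem_map, Function.Embedding.coeFn_mk] at hab
    obtain ⟨⟨x, y⟩, hxy, he⟩ := hab
    simp only [Prod.mk.injEq] at he
    obtain ⟨rfl, rfl⟩ := he
    have h1 : (AddCon.ker f) x y := by
      rw [← h]
      exact AddConGen.Rel.of _ _ hxy
    rw [AddCon.ker_rel] at h1 ⊢
    simpa using h1
  · intro a b hab
    rw [AddCon.ker_rel] at hab
    have h1 : (AddCon.ker f) (E a) (E b) := by
      rw [AddCon.ker_rel]; simpa using hab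
    rw [← h] at h1
    set c := addConGen (fun a b => (a, b) ∈ R.map
      (⟨fun p => (E.symm p.1, E.symm p.2), fun p q hpq => by
        simp only [Prod.mk.injEq, EmbeddingLike.apply_eq_iff_eq] at hpq
        exact Prod.ext hpq.1 hpq.2⟩ : N × N ↪ M × M)) with hc
    have h2 : addConGen (fun a b => (a, b) ∈ R) ≤ AddCon.comap E.symm (map_add E.symm) c := by
      rw [AddCon.addConGen_le]
      intro x y hxy
      rw [AddCon.comap_rel]
      rw [hc]
      apply AddConGen.Rel.of
      simp only [Finset.mem_map, Function.Embedding.coeFn_mk]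
      exact ⟨(x, y), hxy, rfl⟩
    have h3 := h2 h1
    rw [AddCon.comap_rel] at h3
    simpa using h3

theorem presRank_comp_equiv_le (f : N →+ ℕ) (E : M ≃+ N) (hne : ∃ R, GenKer f R) :
    presRank (f.comp E.toAddMonoidHom) ≤ presRank f := by
  classical
  apply le_presRank hne
  intro R hR
  have := presRank_le (hR.comp_equiv E)
  simpa using this

end presRank

end MPc709de
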