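import Pool.Agent.Work.MP_c709de_al.Basic

/-! `rho Γ` in terms of an explicit enumeration of the minimal generators. -/

namespace MPc709de

open Finset

/-- `a ↦ ∑ a_i h_i`. -/
def comb {ι : Type*} [Fintype ι] (h : ι → ℕ) : (ι → ℕ) →+ ℕ where
  toFun a := ∑ i, a i * h i
  map_zero' := by simp
  map_add' a b := by simp [add_mul, Finset.sum_add_distrib]

theorem comb_apply {ι : Type*} [Fintype ι] (h : ι → ℕ) (a : ι → ℕ) :
    comb h a = ∑ i, a i * h i := rfl

section

variable {ι : Type*} [Fintype ι] {Γ : AddSubmonoid ℕ} {h : ι → ℕ}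

/-- the enumeration as an equivalence. -/
noncomputable def enumEquiv (hinj : Function.Injective h) (hr : Set.range h = minGens Γ) :
    ι ≃ minGens Γ :=
  (Equiv.ofInjective h hinj).trans (Equiv.setCongr hr)

theorem enumEquiv_apply (hinj : Function.Injective h) (hr : Set.range h = minGens Γ) (i : ι) :
    ((enumEquiv hinj hr i : minGens Γ) : ℕ) = h i := rfl

/-- additive equivalence of the exponent monoids. -/
noncomputable def expEquiv (hinj : Function.Injective h) (hr : Set.range h = minGens Γ) :
    (minGens Γ →₀ ℕ) ≃+ (ι → ℕ) :=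
  (Finsupp.domCongr (enumEquiv hinj hr).symm).trans
    (Finsupp.linearEquivFunOnFinite ℕ ℕ ι).toAddEquiv

theorem factor_eq (hinj : Function.Injective h) (hr : Set.range h = minGens Γ) :
    factor Γ = (comb h).comp (expEquiv hinj hr).toAddMonoidHom := by
  apply Finsupp.addHom_ext
  intro x n
  obtain ⟨i, rfl⟩ := (enumEquiv hinj hr).surjective x
  simp only [factor, LinearMap.toAddMonoidHom_coe, Finsupp.linearCombination_single, smul_eq_mul,
    enumEquiv_apply, AddMonoidHom.coe_comp, AddEquiv.coe_toAddMonoidHom, Function.comp_apply,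
    comb_apply, expEquiv, AddEquiv.trans_apply, Finsupp.domCongr_apply, Finsupp.equivMapDomain_single,
    Equiv.symm_apply_apply, LinearEquiv.coe_toAddEquiv, Finsupp.linearEquivFunOnFinite_apply]
  rw [Finset.sum_eq_single i]
  · simp
  · intro b _ hb
    simp [Finsupp.single_apply, hb.symm]
  · simp

theorem rho_eq (hinj : Function.Injective h) (hr : Set.range h = minGens Γ)
    (hne : ∃ R, GenKer (comb h) R) : rho Γ = presRank (comb h) := by
  have h1 := factor_eq hinj hr
  apply le_antisymm
  · unfold rho
    rw [h1]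
    exact presRank_comp_equiv_le _ _ hne
  · have h2 : comb h = (factor Γ).comp (expEquiv hinj hr).symm.toAddMonoidHom := by
      rw [h1]; ext x; simp
    have h3 : ∃ R, GenKer (factor Γ) R := by
      obtain ⟨R, hR⟩ := hne
      rw [h1]
      exact ⟨_, hR.comp_equiv _⟩
    rw [h2]
    exact presRank_comp_equiv_le _ _ h3

end

end MPc709de
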