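import Pool.Agent.Work.MP_c709de_al.Upper

/-! Counting the minimal non-standard elements. -/

namespace MPc709de

open Finset

section

variable {κ : Type*} [Fintype κ] [LinearOrder κ] (m : ℕ) (φ : (κ →₀ ℕ) →+ ℕ)

/-- two antichain members agreeing off one index are equal -/
theorem MinNon.eq_of_off {u v : κ →₀ ℕ} (hu : u ∈ MinNon m φ) (hv : v ∈ MinNon m φ) (i : κ)
    (h : ∀ x, x ≠ i → u x = v x) : u = v := by
  rcases le_total (u i) (v i) with h1 | h1
  · refine MinNon.antichain m φ hu hv ?_
    intro x
    by_cases hx : x = i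
    · subst hx; exact h1
    · exact (h x hx).le
  · symm
    refine MinNon.antichain m φ hv hu ?_
    intro x
    by_cases hx : x = i
    · subst hx; exact h1
    · exact (h x hx).ge

theorem small_card (S : Finset (κ →₀ ℕ)) (hS : ∀ u ∈ S, u ∈ MinNon m φ) (T : ℕ)
    {j i₀ : κ} (hj : i₀ ≠ j) (hS' : ∀ u ∈ S, u j = 0 ∧ ∀ x, u x ≤ T) :
    S.card ≤ (T + 1) ^ (Fintype.card κ - 2) := by
  classical
  have hcard : Fintype.card {x : κ // x ≠ j ∧ x ≠ i₀} = Fintype.card κ - 2 := by
    rw [Fintype.card_subtype]
    have : (univ.filter (fun x : κ => x ≠ j ∧ x ≠ i₀)) = (univ.erase j).erase i₀ := by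
      ext x; simp [and_comm]
    rw [this, Finset.card_erase_of_mem (by simp [hj]), Finset.card_erase_of_mem (by simp),
      Finset.card_univ]
    omega
  have h1 : S.card ≤ (univ : Finset ({x : κ // x ≠ j ∧ x ≠ i₀} → Fin (T + 1))).card := by
    apply Finset.card_le_card_of_injOn
      (fun u x => (⟨min (u x) T, by omega⟩ : Fin (T + 1))) (by intro _ _; simp)
    intro u hu v hv huv
    have hu' := hS' u hu
    have hv' := hS' v hv
    apply MinNon.eq_of_off m φ (hS u hu) (hS v hv) i₀
    intro x hx
    by_cases hxj : x = j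
    · rw [hxj, hu'.1, hv'.1]
    · have := congrFun huv ⟨x, hxj, hx⟩
      simp only [Fin.mk.injEq] at this
      have h1 := hu'.2 x
      have h2 := hv'.2 x
      rw [min_eq_left h1, min_eq_left h2] at this
      exact this
  rw [Finset.card_univ, Fintype.card_fun, Fintype.card_fin, hcard] at h1
  exact h1

theorem big_card (hm : 0 < m) (S : Finset (κ →₀ ℕ)) (hS : ∀ u ∈ S, u ∈ MinNon m φ) (T : ℕ)
    {i : κ} (hS' : ∀ u ∈ S, T < u i) : S.card * (T + 1) ≤ m := by
  classical
  have h1 : (S ×ˢ Finset.range (T + 1)).card ≤ (std_finite m φ hm).toFinset.card := by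
    apply Finset.card_le_card_of_injOn (fun p => p.1.update i p.2)
    · rintro ⟨u, t⟩ hut
      simp only [Finset.coe_product, Set.mem_prod, Finset.mem_coe, Finset.mem_range] at hut
      have hu := hS u hut.1
      have hu' := hS' u hut.1
      simp only [Set.Finite.coe_toFinset, Set.mem_ofPred_eq]
      apply (hu.2 i (by omega)).of_le
      intro x
      simp only [Finsupp.coe_update, Finsupp.coe_tsub, Pi.sub_apply, Finsupp.single_apply,
        Function.update_apply]
      by_cases hx : x = i
      · subst hx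
        simp
        omega
      · rw [if_neg hx, if_neg (Ne.symm hx)]
        simp
    · rintro ⟨u, t⟩ hut ⟨v, s⟩ hvs h
      simp only [Finset.coe_product, Set.mem_prod, Finset.mem_coe, Finset.mem_range] at hut hvs
      have hts : t = s := by
        have := DFunLike.congr_fun h i
        simpa using this
      have huv : u = v := by
        apply MinNon.eq_of_off m φ (hS u hut.1) (hS v hvs.1) i
        intro x hx
        have := DFunLike.congr_fun h x
        simpa [Function.update_apply, hx] using this
      rw [hts, huv]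
  rw [Finset.card_product, Finset.card_range] at h1
  exact h1.trans (std_card m φ hm)

theorem minNon_card (hm : 0 < m) (he : 2 ≤ Fintype.card κ) (T : ℕ)
    (hT : m ≤ T ^ (Fintype.card κ - 1)) :
    (minNon_finite m φ hm).toFinset.card ≤
      1 + Fintype.card κ * ((T + 1) ^ (Fintype.card κ - 2) +
        (Fintype.card κ - 1) * T ^ (Fintype.card κ - 2)) := by
  classical
  set e := Fintype.card κ with he'
  set MN := (minNon_finite m φ hm).toFinset with hMN
  have hmem : ∀ u, u ∈ MN ↔ u ∈ MinNon m φ := by intro u; simp [hMN]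
  have hne : Nonempty κ := by
    rw [← Fintype.card_pos_iff]; omega
  have hcover : MN ⊆ MN.filter (fun u => ∀ i, u i ≠ 0) ∪
      (univ : Finset κ).biUnion (fun j => MN.filter (fun u => u j = 0 ∧ ∀ x, u x ≤ T) ∪
        (univ.erase j).biUnion (fun i => MN.filter (fun u => u j = 0 ∧ T < u i))) := by
    intro u hu
    rw [Finset.mem_union]
    by_cases h1 : ∀ i, u i ≠ 0
    · left; rw [Finset.mem_filter]; exact ⟨hu, h1⟩
    · right
      push Not at h1
      obtain ⟨j, hj⟩ := h1
      rw [Finset.mem_biUnion]
      refine ⟨j, Finset.mem_univ _, ?_⟩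
      rw [Finset.mem_union]
      by_cases h2 : ∀ x, u x ≤ T
      · left; rw [Finset.mem_filter]; exact ⟨hu, hj, h2⟩
      · right
        push Not at h2
        obtain ⟨x, hx⟩ := h2
        rw [Finset.mem_biUnion]
        refine ⟨x, ?_, ?_⟩
        · rw [Finset.mem_erase]
          refine ⟨?_, Finset.mem_univ _⟩
          rintro rfl
          omega
        · rw [Finset.mem_filter]; exact ⟨hu, hj, hx⟩
  have hfull : (MN.filter (fun u => ∀ i, u i ≠ 0)).card ≤ 1 := by
    rw [Finset.card_le_one]
    intro u hu v hv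
    rw [Finset.mem_filter] at hu hv
    exact full_unique m φ ((hmem u).1 hu.1) ((hmem v).1 hv.1) hu.2 hv.2
  have hTpos : 0 < T := by
    rcases Nat.eq_zero_or_pos T with h | h
    · subst h
      rw [zero_pow (by omega)] at hT
      omega
    · exact h
  have hbig : ∀ j i : κ, (MN.filter (fun u => u j = 0 ∧ T < u i)).card ≤ T ^ (e - 2) := by
    intro j i
    have h1 := big_card m φ hm (MN.filter (fun u => u j = 0 ∧ T < u i))
      (fun u hu => (hmem u).1 (Finset.mem_filter.1 hu).1) T (i := i)
      (fun u hu => (Finset.mem_filter.1 hu).2.2)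
    by_contra hcon
    push Not at hcon
    have h2 : T ^ (e - 1) = T ^ (e - 2) * T := by
      rw [← pow_succ]; congr 1; omega
    have h3 : T ^ (e - 2) * T < (MN.filter (fun u => u j = 0 ∧ T < u i)).card * (T + 1) := by
      apply Nat.mul_lt_mul'' hcon; omega
    omega
  have hsmall : ∀ j : κ, (MN.filter (fun u => u j = 0 ∧ ∀ x, u x ≤ T)).card ≤
      (T + 1) ^ (e - 2) := by
    intro j
    obtain ⟨i₀, hi₀⟩ : ∃ i₀ : κ, i₀ ≠ j := by
      have : 1 < Fintype.card κ := by omega
      exact Fintype.exists_ne_of_one_lt_card this j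
    exact small_card m φ _ (fun u hu => (hmem u).1 (Finset.mem_filter.1 hu).1) T hi₀
      (fun u hu => (Finset.mem_filter.1 hu).2)
  calc MN.card ≤ _ := Finset.card_le_card hcover
    _ ≤ _ := Finset.card_union_le _ _
    _ ≤ 1 + e * ((T + 1) ^ (e - 2) + (e - 1) * T ^ (e - 2)) := by
      apply Nat.add_le_add hfull
      have h1 : ∀ j ∈ (univ : Finset κ), (MN.filter (fun u => u j = 0 ∧ ∀ x, u x ≤ T) ∪
        (univ.erase j).biUnion (fun i => MN.filter (fun u => u j = 0 ∧ T < u i))).card ≤
          (T + 1) ^ (e - 2) + (e - 1) * T ^ (e - 2) := by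
        intro j _
        refine (Finset.card_union_le _ _).trans ?_
        apply Nat.add_le_add (hsmall j)
        have h2 := Finset.card_biUnion_le_card_mul (univ.erase j)
          (fun i => MN.filter (fun u => u j = 0 ∧ T < u i)) (T ^ (e - 2)) (fun i _ => hbig j i)
        rw [Finset.card_erase_of_mem (Finset.mem_univ _), Finset.card_univ] at h2
        exact h2
      have h3 := Finset.card_biUnion_le_card_mul _ _ _ h1
      rw [Finset.card_univ] at h3
      exact h3

/-- Upper bound for the presentation rank. -/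
theorem presRank_Phi_le (hm : 0 < m) (he : 2 ≤ Fintype.card κ) (T : ℕ)
    (hT : m ≤ T ^ (Fintype.card κ - 1)) :
    (∃ R, GenKer (Phi m φ) R) ∧ presRank (Phi m φ) ≤
      1 + Fintype.card κ * ((T + 1) ^ (Fintype.card κ - 2) +
        (Fintype.card κ - 1) * T ^ (Fintype.card κ - 2)) := by
  classical
  have h1 := genKer_relOf m φ hm (minNon_finite m φ hm).toFinset (by intro u; simp)
  refine ⟨⟨_, h1⟩, ?_⟩
  exact (presRank_le h1).trans (Finset.card_image_le.trans (minNon_card m φ hm he T hT))

end

end MPc709de
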