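import Mathlib

/-! Sidon sets of Erdős–Turán. -/

namespace MPc709de

/-- Sums of two elements determine the pair. -/
def IsSidon {n : ℕ} (a : Fin n → ℕ) : Prop :=
  ∀ i j i' j', a i + a j = a i' + a j' → (i = i' ∧ j = j') ∨ (i = j' ∧ j = i')

theorem sidon_aux {p : ℕ} (hp : p.Prime) (hp2 : p ≠ 2) {i j i' j' : ℕ} (hi : i < p) (_hj : j < p)
    (hi' : i' < p) (hj' : j' < p)
    (h : (2 * p * i + i ^ 2 % p) + (2 * p * j + j ^ 2 % p) =
      (2 * p * i' + i' ^ 2 % p) + (2 * p * j' + j' ^ 2 % p)) :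
    (i = i' ∧ j = j') ∨ (i = j' ∧ j = i') := by
  have hp0 : 0 < p := hp.pos
  have e1 : i ^ 2 % p < p := Nat.mod_lt _ hp0
  have e2 : j ^ 2 % p < p := Nat.mod_lt _ hp0
  have e3 : i' ^ 2 % p < p := Nat.mod_lt _ hp0
  have e4 : j' ^ 2 % p < p := Nat.mod_lt _ hp0
  have h1 : (i ^ 2 % p + j ^ 2 % p) + 2 * p * (i + j) =
      (i' ^ 2 % p + j' ^ 2 % p) + 2 * p * (i' + j') := by ring_nf at h ⊢; omega
  have h2 : i ^ 2 % p + j ^ 2 % p = i' ^ 2 % p + j' ^ 2 % p := by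
    have h5 := congrArg (fun x => x % (2 * p)) h1
    have h6 : (i ^ 2 % p + j ^ 2 % p) % (2 * p) = (i' ^ 2 % p + j' ^ 2 % p) % (2 * p) := by
      simpa [Nat.add_mul_mod_self_left] using h5
    have h7 : (i ^ 2 % p + j ^ 2 % p) % (2 * p) = i ^ 2 % p + j ^ 2 % p :=
      Nat.mod_eq_of_lt (by omega)
    have h8 : (i' ^ 2 % p + j' ^ 2 % p) % (2 * p) = i' ^ 2 % p + j' ^ 2 % p :=
      Nat.mod_eq_of_lt (by omega)
    rw [h7, h8] at h6
    exact h6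
  have h3 : i + j = i' + j' := by
    rw [h2] at h1
    exact Nat.eq_of_mul_eq_mul_left (by omega) (Nat.add_left_cancel h1)
  have h4 : i ^ 2 + j ^ 2 ≡ i' ^ 2 + j' ^ 2 [MOD p] := by
    have h5 : i ^ 2 % p + j ^ 2 % p ≡ i ^ 2 + j ^ 2 [MOD p] :=
      Nat.ModEq.add (Nat.mod_modEq _ _) (Nat.mod_modEq _ _)
    have h6 : i' ^ 2 % p + j' ^ 2 % p ≡ i' ^ 2 + j' ^ 2 [MOD p] :=
      Nat.ModEq.add (Nat.mod_modEq _ _) (Nat.mod_modEq _ _)
    exact h5.symm.trans (h2 ▸ h6)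
  have h7 : (p : ℤ) ∣ 2 * (((i : ℤ) - i') * ((i : ℤ) - j')) := by
    have h8 := (Nat.modEq_iff_dvd.1 h4)
    push_cast at h8
    have h9 : (j : ℤ) = i' + j' - i := by
      have : ((i + j : ℕ) : ℤ) = ((i' + j' : ℕ) : ℤ) := by rw [h3]
      push_cast at this; linarith
    have h10 : (i' : ℤ) ^ 2 + (j' : ℤ) ^ 2 - ((i : ℤ) ^ 2 + (j : ℤ) ^ 2) =
        - (2 * (((i : ℤ) - i') * ((i : ℤ) - j'))) := by rw [h9]; ring
    rw [h10, dvd_neg] at h8
    exact h8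
  have hpi : Prime (p : ℤ) := Nat.prime_iff_prime_int.1 hp
  have h11 : (p : ℤ) ∣ (i : ℤ) - i' ∨ (p : ℤ) ∣ (i : ℤ) - j' := by
    rcases hpi.dvd_or_dvd h7 with h | h
    · exfalso
      have : (p : ℤ) ≤ 2 := Int.le_of_dvd (by norm_num) h
      have := hp.two_le
      omega
    · exact hpi.dvd_or_dvd h
  rcases h11 with h | h
  · left
    have : (i : ℤ) - i' = 0 := Int.eq_zero_of_abs_lt_dvd h (by rw [abs_lt]; constructor <;> omega)
    omega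
  · right
    have : (i : ℤ) - j' = 0 := Int.eq_zero_of_abs_lt_dvd h (by rw [abs_lt]; constructor <;> omega)
    omega

/-- For every `k ≥ 1` there is a Sidon set with `k + 1` elements in `(L, 2L+1]` for some `L` with
`4 L + 2 < 72 k ^ 2`. -/
theorem exists_sidon (k : ℕ) (hk : 1 ≤ k) : ∃ (L : ℕ) (a : Fin (k + 1) → ℕ), IsSidon a ∧
    (∀ i, L < a i ∧ a i ≤ 2 * L + 1) ∧ 4 * L + 2 < 36 * k * (k + 1) := by
  -- an odd prime `p` with `k + 1 ≤ p`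
  obtain ⟨p, hp, hp2, hkp, hpk⟩ : ∃ p : ℕ, p.Prime ∧ p ≠ 2 ∧ k + 1 ≤ p ∧
      8 * p ^ 2 ≤ 36 * k * (k + 1) := by
    rcases Nat.lt_or_ge k 2 with h | h
    · have : k = 1 := by omega
      subst this
      exact ⟨3, Nat.prime_three, by norm_num, by norm_num, by norm_num⟩
    · obtain ⟨p, hp, h1, h2⟩ := Nat.exists_prime_lt_and_le_two_mul k (by omega)
      refine ⟨p, hp, by omega, by omega, ?_⟩
      have : p ^ 2 ≤ (2 * k) ^ 2 := Nat.pow_le_pow_left h2 2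
      nlinarith
  have hp0 := hp.pos
  have hlt : ∀ i : Fin (k + 1), (i : ℕ) < p := fun i => by omega
  refine ⟨2 * p ^ 2 - 1, fun i => 2 * p ^ 2 + (2 * p * i + (i : ℕ) ^ 2 % p), ?_, ?_, ?_⟩
  · intro i j i' j' h
    beta_reduce at h
    have := sidon_aux hp hp2 (hlt i) (hlt j) (hlt i') (hlt j') (by omega)
    rcases this with ⟨h1, h2⟩ | ⟨h1, h2⟩
    · left; exact ⟨Fin.ext h1, Fin.ext h2⟩
    · right; exact ⟨Fin.ext h1, Fin.ext h2⟩
  · intro i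
    have h1 : 0 < p ^ 2 := by positivity
    have h2 : (i : ℕ) ^ 2 % p < p := Nat.mod_lt _ hp0
    have h3 : 2 * p * (i : ℕ) + 2 * p ≤ 2 * p ^ 2 := by
      have : 2 * p * ((i : ℕ) + 1) ≤ 2 * p * p := Nat.mul_le_mul_left _ (hlt i)
      nlinarith
    beta_reduce
    constructor
    · omega
    · omega
  · have h1 : 0 < p ^ 2 := by positivity
    omega

end MPc709de
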