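import Pool.Agent.Work.MP_c709de_al.LinLower
import Pool.Agent.Work.MP_c709de_al.SidonSet

/-! The family attached to a Sidon set. -/

namespace MPc709de

open Finset

/-- value of a factorization: `t` copies of `m` and a multiset of other generators. -/
def mval {κ : Type*} (m : ℕ) (g : κ → ℕ) : ℕ × Multiset κ →+ ℕ where
  toFun p := p.1 * m + (p.2.map g).sum
  map_zero' := by simp
  map_add' p q := by simp [add_mul]; ring

theorem mval_apply {κ : Type*} (m : ℕ) (g : κ → ℕ) (p : ℕ × Multiset κ) :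
    mval m g p = p.1 * m + (p.2.map g).sum := rfl

/-- `(Option κ → ℕ) ≃+ ℕ × Multiset κ` -/
noncomputable def msEquiv (κ : Type*) [Fintype κ] [DecidableEq κ] :
    (Option κ → ℕ) ≃+ ℕ × Multiset κ :=
  (optEquiv κ).trans ((AddEquiv.refl ℕ).prodCongr Multiset.toFinsupp.symm)

theorem sum_map_eq {κ : Type*} [Fintype κ] [DecidableEq κ] (g : κ → ℕ) (s : Multiset κ) :
    (s.map g).sum = ∑ x, s.count x * g x := by
  rw [Finset.sum_multiset_map_count]
  symm
  simp only [smul_eq_mul]
  refine (Finset.sum_subset (Finset.subset_univ _) ?_).symm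
  intro x _ hx
  rw [Multiset.mem_toFinset] at hx
  rw [Multiset.count_eq_zero_of_notMem hx, zero_mul]

theorem comb_eq_mval {κ : Type*} [Fintype κ] [DecidableEq κ] (m : ℕ) (g : κ → ℕ) :
    comb (fun o : Option κ => o.elim m g) = (mval m g).comp (msEquiv κ).toAddMonoidHom := by
  refine AddMonoidHom.ext (fun v => ?_)
  rw [comb_apply, Fintype.sum_option]
  change _ = mval m g (msEquiv κ v)
  rw [mval_apply, sum_map_eq]
  congr 1
  refine Finset.sum_congr rfl (fun x _ => ?_)
  congr 1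
  change _ = Multiset.count x (Multiset.toFinsupp.symm ((optEquiv κ v).2))
  rw [Multiset.toFinsupp_symm_apply, Finsupp.count_toMultiset]
  rfl

theorem genKer_mval {κ : Type*} [Fintype κ] [DecidableEq κ] {m : ℕ} {g : κ → ℕ} {n : ℕ}
    (hn : ∀ R, GenKer (mval m g) R → n ≤ R.card)
    (R : Finset ((Option κ → ℕ) × (Option κ → ℕ)))
    (hR : GenKer (comb (fun o : Option κ => o.elim m g)) R) : n ≤ R.card := by
  have h1 : mval m g = (comb (fun o : Option κ => o.elim m g)).comp
      (msEquiv κ).symm.toAddMonoidHom := by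
    rw [comb_eq_mval]
    refine AddMonoidHom.ext (fun v => ?_)
    change _ = mval m g (msEquiv κ ((msEquiv κ).symm v))
    rw [AddEquiv.apply_symm_apply]
  have h2 := hR.comp_equiv (msEquiv κ).symm
  rw [← h1] at h2
  have := hn _ h2
  simpa using this

section

variable {k t : ℕ}

/-- the allowed index pairs -/
def QQ (k t : ℕ) (ht : t ≤ k) : Finset (Sym2 (Fin (k + 1))) :=
  (univ : Finset (Sym2 (Fin k))).image (Sym2.map Fin.castSucc) ∪
  (univ : Finset (Fin t)).image (fun i => s(Fin.last k, Fin.castSucc (Fin.castLE ht i)))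

theorem mem_QQ (ht : t ≤ k) (i j : Fin (k + 1)) : s(i, j) ∈ QQ k t ht ↔
    ((i : ℕ) < k ∧ (j : ℕ) < k) ∨ ((i : ℕ) = k ∧ (j : ℕ) < t) ∨ ((j : ℕ) = k ∧ (i : ℕ) < t) := by
  unfold QQ
  simp only [Finset.mem_union, Finset.mem_image, Finset.mem_univ, true_and]
  constructor
  · rintro (⟨z, hz⟩ | ⟨x, hx⟩)
    · left
      induction z using Sym2.ind with
      | _ x y =>
        rw [Sym2.map_mk, Sym2.eq_iff] at hz
        rcases hz with ⟨rfl, rfl⟩ | ⟨rfl, rfl⟩
        · exact ⟨x.2, y.2⟩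
        · exact ⟨y.2, x.2⟩
    · right
      rw [Sym2.eq_iff] at hx
      rcases hx with ⟨rfl, rfl⟩ | ⟨rfl, rfl⟩
      · left; exact ⟨rfl, x.2⟩
      · right; exact ⟨rfl, x.2⟩
  · rintro (⟨hi, hj⟩ | ⟨hi, hj⟩ | ⟨hj, hi⟩)
    · left
      exact ⟨s(⟨i, hi⟩, ⟨j, hj⟩), by rw [Sym2.map_mk]; rfl⟩
    · right
      refine ⟨⟨j, hj⟩, ?_⟩
      rw [Sym2.eq_iff]; left
      exact ⟨Fin.ext hi.symm, Fin.ext rfl⟩
    · right
      refine ⟨⟨i, hi⟩, ?_⟩
      rw [Sym2.eq_iff]; right
      exact ⟨Fin.ext hj.symm, Fin.ext rfl⟩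

theorem card_QQ (ht : t ≤ k) : (QQ k t ht).card = (k + 1).choose 2 + t := by
  unfold QQ
  rw [Finset.card_union_of_disjoint, Finset.card_image_of_injective, Finset.card_image_of_injective]
  · rw [Finset.card_univ, Finset.card_univ, Sym2.card, Fintype.card_fin, Fintype.card_fin]
  · intro x y h
    rw [Sym2.eq_iff] at h
    rcases h with ⟨_, h⟩ | ⟨h, _⟩
    · have := congrArg Fin.val h
      exact Fin.ext (by simpa using this)
    · have := congrArg Fin.val h
      simp at this
      omega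
  · exact Sym2.map.injective (Fin.castSucc_injective k)
  · rw [Finset.disjoint_left]
    intro z hz hz'
    simp only [Finset.mem_image, Finset.mem_univ, true_and] at hz hz'
    obtain ⟨w, rfl⟩ := hz
    obtain ⟨x, hx⟩ := hz'
    induction w using Sym2.ind with
    | _ u v =>
      rw [Sym2.map_mk, Sym2.eq_iff] at hx
      rcases hx with ⟨h, _⟩ | ⟨h, _⟩
      · have := congrArg Fin.val h
        simp at this; omega
      · have := congrArg Fin.val h
        simp at this; omega

/-- the sum over a pair -/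
def psum (a : Fin (k + 1) → ℕ) : Sym2 (Fin (k + 1)) → ℕ :=
  Sym2.lift ⟨fun i j => a i + a j, fun _ _ => add_comm _ _⟩

theorem psum_mk (a : Fin (k + 1) → ℕ) (i j : Fin (k + 1)) : psum a s(i, j) = a i + a j := rfl

theorem psum_injective {a : Fin (k + 1) → ℕ} (ha : IsSidon a) :
    Function.Injective (psum a) := by
  intro z w h
  induction z using Sym2.ind with
  | _ i j =>
    induction w using Sym2.ind with
    | _ i' j' =>
      rw [psum_mk, psum_mk] at h
      rw [Sym2.eq_iff]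
      exact ha i j i' j' h

/-- excluded residues -/
def Sums (a : Fin (k + 1) → ℕ) (ht : t ≤ k) : Finset ℕ := (QQ k t ht).image (psum a)

theorem mem_Sums (a : Fin (k + 1) → ℕ) (ht : t ≤ k) (r : ℕ) :
    r ∈ Sums a ht ↔ ∃ i j, s(i, j) ∈ QQ k t ht ∧ a i + a j = r := by
  unfold Sums
  rw [Finset.mem_image]
  constructor
  · rintro ⟨z, hz, rfl⟩
    induction z using Sym2.ind with
    | _ i j => exact ⟨i, j, hz, rfl⟩
  · rintro ⟨i, j, h, rfl⟩
    exact ⟨s(i, j), h, rfl⟩

/-- residues of the generators -/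
def GG (m : ℕ) (a : Fin (k + 1) → ℕ) (ht : t ≤ k) : Finset ℕ :=
  ((range m).erase 0) \ Sums a ht

theorem mem_GG (m : ℕ) (a : Fin (k + 1) → ℕ) (ht : t ≤ k) (r : ℕ) :
    r ∈ GG m a ht ↔ r ≠ 0 ∧ r < m ∧ r ∉ Sums a ht := by
  unfold GG
  rw [Finset.mem_sdiff, Finset.mem_erase, Finset.mem_range]
  tauto

theorem card_GG {m L : ℕ} {a : Fin (k + 1) → ℕ} (ht : t ≤ k) (ha : IsSidon a)
    (hL : ∀ i, L < a i ∧ a i ≤ 2 * L + 1) (hm : 4 * L + 2 < m) :
    (GG m a ht).card = m - 1 - ((k + 1).choose 2 + t) := by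
  unfold GG
  rw [Finset.card_sdiff_of_subset, Finset.card_erase_of_mem, Finset.card_range]
  · congr 1
    unfold Sums
    rw [Finset.card_image_of_injective _ (psum_injective ha), card_QQ]
  · rw [Finset.mem_range]; omega
  · intro r hr
    rw [mem_Sums] at hr
    obtain ⟨i, j, _, rfl⟩ := hr
    have := hL i
    have := hL j
    rw [Finset.mem_erase, Finset.mem_range]
    omega

end

end MPc709de
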