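import Mathlib

/-! Numerical semigroups, minimal presentations and the function `R(e,m)` of MP_c709de_al. -/

namespace MPc709de

/-- `Γ` is a numerical semigroup: an additive submonoid of `ℕ` with finite complement. -/
def IsNumerical (Γ : AddSubmonoid ℕ) : Prop := ((Γ : Set ℕ)ᶜ).Finite

/-- The minimal generating set of `Γ`: the nonzero elements that are not a sum of two nonzero
elements of `Γ`. -/
def minGens (Γ : AddSubmonoid ℕ) : Set ℕ :=
  {n | n ∈ Γ ∧ n ≠ 0 ∧ ∀ a ∈ Γ, ∀ b ∈ Γ, a + b = n → a = 0 ∨ b = 0}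

/-- Embedding dimension. -/
noncomputable def edim (Γ : AddSubmonoid ℕ) : ℕ := (minGens Γ).ncard

/-- Multiplicity: the least positive element. -/
noncomputable def mult (Γ : AddSubmonoid ℕ) : ℕ := sInf {n | n ∈ Γ ∧ 0 < n}

/-- The factorization homomorphism `φ : ℕ^(minGens Γ) → ℕ`, `a ↦ ∑ a_g g`. -/
noncomputable def factor (Γ : AddSubmonoid ℕ) : (minGens Γ →₀ ℕ) →+ ℕ :=
  (Finsupp.linearCombination ℕ (fun g : minGens Γ => (g : ℕ))).toAddMonoidHom

/-- For a homomorphism `f : M → ℕ`, the least number of pairs that generate the congruence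
`ker f = {(a,b) : f a = f b}` on `M`. -/
noncomputable def presRank {M : Type*} [AddCommMonoid M] (f : M →+ ℕ) : ℕ :=
  sInf {k : ℕ | ∃ R : Finset (M × M), R.card = k ∧
    addConGen (fun a b => (a, b) ∈ R) = AddCon.ker f}

/-- `ρ(Γ)`: the cardinality of a minimal presentation of `Γ`. -/
noncomputable def rho (Γ : AddSubmonoid ℕ) : ℕ := presRank (factor Γ)

/-- `R(e,m)`: the supremum of `ρ(Γ)` over all numerical semigroups of embedding dimension
`e+1` and multiplicity `m`. -/
noncomputable def maxRho (e m : ℕ) : ℕ∞ :=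
  ⨆ Γ : {Γ : AddSubmonoid ℕ // IsNumerical Γ ∧ edim Γ = e + 1 ∧ mult Γ = m}, (rho Γ.1 : ℕ∞)

end MPc709de
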