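import Pool.Agent.Work.MP_c709de_al.Range

/-! A family of numerical semigroups with many relations. -/

namespace MPc709de

open Finset

/-- uniqueness of digits -/
theorem digits_unique (K : ℕ) : ∀ (n : ℕ) (a b : Fin n → ℕ), (∀ i, a i < K) → (∀ i, b i < K) →
    ∑ i, a i * K ^ (i : ℕ) = ∑ i, b i * K ^ (i : ℕ) → a = b := by
  intro n
  induction n with
  | zero => intro a b _ _ _; funext i; exact i.elim0
  | succ n ih =>
    intro a b ha hb h
    rw [Fin.sum_univ_succ, Fin.sum_univ_succ] at h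
    have h1 : ∀ c : Fin (n + 1) → ℕ, ∑ i : Fin n, c i.succ * K ^ ((i.succ : Fin (n + 1)) : ℕ) =
        K * ∑ i : Fin n, c i.succ * K ^ (i : ℕ) := by
      intro c
      rw [Finset.mul_sum]
      refine Finset.sum_congr rfl (fun i _ => ?_)
      rw [Fin.val_succ, pow_succ]; ring
    rw [h1 a, h1 b] at h
    simp only [Fin.val_zero, pow_zero, mul_one] at h
    have h2 : a 0 = b 0 := by
      have := congrArg (· % K) h
      simp only [Nat.add_mul_mod_self_left] at this
      rwa [Nat.mod_eq_of_lt (ha 0), Nat.mod_eq_of_lt (hb 0)] at this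
    have hK : 0 < K := lt_of_le_of_lt (Nat.zero_le _) (ha 0)
    have h3 : ∑ i : Fin n, a i.succ * K ^ (i : ℕ) = ∑ i : Fin n, b i.succ * K ^ (i : ℕ) := by
      rw [h2] at h
      exact Nat.eq_of_mul_eq_mul_left hK (Nat.add_left_cancel h)
    have h4 := ih (fun i => a i.succ) (fun i => b i.succ) (fun i => ha _) (fun i => hb _) h3
    funext i
    refine Fin.cases h2 (fun j => congrFun h4 j) i

/-- weights -/
def rr (K D : ℕ) : Fin (D + 1) → ℕ := Fin.cons 0 (fun i => K ^ (i : ℕ))

theorem sum_rr (K D : ℕ) (a : Fin (D + 1) → ℕ) :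
    ∑ i, a i * rr K D i = ∑ i : Fin D, a i.succ * K ^ (i : ℕ) := by
  rw [Fin.sum_univ_succ]
  simp [rr]

theorem rr_le {K : ℕ} (hK : 0 < K) (D : ℕ) (i : Fin (D + 1)) : K * rr K D i ≤ K ^ D := by
  refine Fin.cases ?_ (fun j => ?_) i
  · simp [rr]
  · simp only [rr, Fin.cons_succ]
    rw [← pow_succ']
    exact Nat.pow_le_pow_right hK (by omega)

theorem sum_rr_le {K : ℕ} (hK : 0 < K) (D : ℕ) (a : Fin (D + 1) → ℕ) :
    K * ∑ i, a i * rr K D i ≤ (∑ i, a i) * K ^ D := by
  rw [Finset.mul_sum, Finset.sum_mul]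
  apply Finset.sum_le_sum
  intro i _
  calc K * (a i * rr K D i) = a i * (K * rr K D i) := by ring
    _ ≤ _ := Nat.mul_le_mul_left _ (rr_le hK D i)

theorem rr_unique {K D : ℕ} {a b : Fin (D + 1) → ℕ} (ha : ∀ i, a i < K) (hb : ∀ i, b i < K)
    (hs : ∑ i, a i = ∑ i, b i) (h : ∑ i, a i * rr K D i = ∑ i, b i * rr K D i) : a = b := by
  rw [sum_rr, sum_rr] at h
  have h1 := digits_unique K D (fun i => a i.succ) (fun i => b i.succ) (fun i => ha _)
    (fun i => hb _) h
  have h2 : ∀ i : Fin D, a i.succ = b i.succ := fun i => congrFun h1 i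
  have h3 : a 0 = b 0 := by
    rw [Fin.sum_univ_succ, Fin.sum_univ_succ] at hs
    have h4 : ∑ i : Fin D, a i.succ = ∑ i : Fin D, b i.succ :=
      Finset.sum_congr rfl (fun i _ => h2 i)
    omega
  funext i
  exact Fin.cases h3 h2 i

section

variable (m k D : ℕ)

/-- the generators -/
def gen : Option (Option (Fin (D + 1))) → ℕ
  | none => m
  | some none => m * k + k
  | some (some i) => m * ((k + 1) ^ D + 1) + (1 + k * rr (k + 1) D i)

/-- the `x`-part of an exponent vector -/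
def xpart {D : ℕ} (v : Option (Option (Fin (D + 1))) → ℕ) : Fin (D + 1) → ℕ :=
  fun i => v (some (some i))

theorem comb_gen (v : Option (Option (Fin (D + 1))) → ℕ) :
    comb (gen m k D) v = v none * m + v (some none) * (m * k + k) +
      ((∑ i, xpart v i) * (m * ((k + 1) ^ D + 1)) +
        ((∑ i, xpart v i) + k * ∑ i, xpart v i * rr (k + 1) D i)) := by
  rw [comb_apply, Fintype.sum_option, Fintype.sum_option]
  have h1 : ∑ i, v (some (some i)) * gen m k D (some (some i)) =
      (∑ i, xpart v i) * (m * ((k + 1) ^ D + 1)) +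
        ((∑ i, xpart v i) + k * ∑ i, xpart v i * rr (k + 1) D i) := by
    rw [Finset.sum_mul, Finset.mul_sum, ← Finset.sum_add_distrib, ← Finset.sum_add_distrib]
    refine Finset.sum_congr rfl (fun i _ => ?_)
    simp only [gen, xpart]
    ring
  rw [h1]
  simp only [gen]
  ring

variable {m k D}

theorem arith (hD : 1 ≤ D) (hk : 2 ≤ k) (hm : 2 * (k + 1) ^ (D + 1) ≤ m)
    {t c sb rb sa ra : ℕ} (hsa : sa ≤ k - 1)
    (hb : (k + 1) * rb ≤ sb * (k + 1) ^ D) (ha : (k + 1) * ra ≤ sa * (k + 1) ^ D)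
    (h : t * m + c * (m * k + k) + (sb * (m * ((k + 1) ^ D + 1)) + (sb + k * rb)) =
      sa * (m * ((k + 1) ^ D + 1)) + (sa + k * ra)) : t = 0 ∧ c = 0 ∧ sb = sa ∧ rb = ra := by
  set Q := (k + 1) ^ D with hQ
  have hQ1 : k + 1 ≤ Q := Nat.le_self_pow (by omega) _
  have hm' : 2 * (Q * (k + 1)) ≤ m := by rw [pow_succ] at hm; exact hm
  obtain ⟨j, rfl⟩ : ∃ j, k = j + 2 := ⟨k - 2, by omega⟩
  have hsa' : sa ≤ j + 1 := by omega
  have hva : sa + (j + 2) * ra ≤ (j + 1) * (1 + Q) := by
    have h1 : sa * Q ≤ (j + 1) * Q := Nat.mul_le_mul_right _ hsa'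
    nlinarith
  have hbig : (j + 1) * (1 + Q) + (j + 1) * (Q + 1) < m := by
    have h1 : (j + 1) * (1 + Q) + (j + 1) * (Q + 1) = 2 * (j + 1) + 2 * (j * Q) + 2 * Q := by ring
    have h2 : 2 * (Q * (j + 2 + 1)) = 2 * (j * Q) + 6 * Q := by ring
    omega
  set P := m * (Q + 1) with hP
  have hmP : m ≤ P := Nat.le_mul_of_pos_right _ (by omega)
  have hsb : sb ≤ sa := by
    by_contra hcon
    push Not at hcon
    have h1 : (sa + 1) * P ≤ sb * P := Nat.mul_le_mul_right _ hcon
    have h2 : (sa + 1) * P = sa * P + P := by ring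
    omega
  have hvb : sb + (j + 2) * rb ≤ (j + 1) * (1 + Q) := by
    have h1 : sb * Q ≤ (j + 1) * Q := Nat.mul_le_mul_right _ (by omega)
    nlinarith
  have hc : c * (j + 2) ≤ sa * (Q + 1) := by
    by_contra hcon
    push Not at hcon
    have h1 : m * (sa * (Q + 1) + 1) ≤ m * (c * (j + 2)) := Nat.mul_le_mul_left _ hcon
    have h2 : m * (sa * (Q + 1) + 1) = sa * P + m := by rw [hP]; ring
    have h3 : c * (m * (j + 2) + (j + 2)) = m * (c * (j + 2)) + c * (j + 2) := by ring
    omega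
  have hc' : c * (j + 2) ≤ (j + 1) * (Q + 1) := hc.trans (Nat.mul_le_mul_right _ hsa')
  have h1 : (sb + (j + 2) * rb + c * (j + 2)) + m * (t + c * (j + 2) + sb * (Q + 1)) =
      (sa + (j + 2) * ra) + m * (sa * (Q + 1)) := by
    have h2 : (sb + (j + 2) * rb + c * (j + 2)) + m * (t + c * (j + 2) + sb * (Q + 1)) =
      t * m + c * (m * (j + 2) + (j + 2)) + (sb * P + (sb + (j + 2) * rb)) := by rw [hP]; ring
    rw [h2, h, hP]; ring
  have hr1 : sb + (j + 2) * rb + c * (j + 2) < m := by omega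
  have hr2 : sa + (j + 2) * ra < m := by omega
  have h2 : sb + (j + 2) * rb + c * (j + 2) = sa + (j + 2) * ra := by
    have := congrArg (· % m) h1
    simp only [Nat.add_mul_mod_self_left] at this
    rwa [Nat.mod_eq_of_lt hr1, Nat.mod_eq_of_lt hr2] at this
  have h3 : t + c * (j + 2) + sb * (Q + 1) = sa * (Q + 1) := by
    rw [h2] at h1
    have := Nat.add_left_cancel h1
    exact Nat.eq_of_mul_eq_mul_left (by omega) this
  have h4 : sb = sa := by
    have h5 : sb + (j + 2) * (rb + c) = sa + (j + 2) * ra := by rw [← h2]; ring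
    have := congrArg (· % (j + 2)) h5
    simp only [Nat.add_mul_mod_self_left] at this
    rwa [Nat.mod_eq_of_lt (by omega), Nat.mod_eq_of_lt (by omega)] at this
  subst h4
  have h6 : t + c * (j + 2) = 0 := by omega
  have h7 : t = 0 := by omega
  have h8 : c = 0 := by
    have : c * (j + 2) = 0 := by omega
    rcases Nat.mul_eq_zero.1 this with h | h
    · exact h
    · omega
  subst h7 h8
  refine ⟨rfl, rfl, rfl, ?_⟩
  have : (j + 2) * rb = (j + 2) * ra := by omega
  exact Nat.eq_of_mul_eq_mul_left (by omega) this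

end

end MPc709de
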