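import Pool.Agent.Work.MP_c709de_al.Family

/-! A family of numerical semigroups with many relations, continued. -/

namespace MPc709de

open Finset

section

variable {m k D : ℕ}

/-- embed an `x`-vector -/
def emb (a : Fin (D + 1) → ℕ) : Option (Option (Fin (D + 1))) → ℕ
  | some (some i) => a i
  | some none => 0
  | none => 0

theorem xpart_emb (a : Fin (D + 1) → ℕ) : xpart (emb a) = a := rfl

theorem eq_emb {v : Option (Option (Fin (D + 1))) → ℕ} (h1 : v none = 0) (h2 : v (some none) = 0) :
    v = emb (xpart v) := by
  funext o
  match o with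
  | none => exact h1
  | some none => exact h2
  | some (some i) => rfl

theorem emb_add (a b : Fin (D + 1) → ℕ) : emb (a + b) = emb a + emb b := by
  funext o
  match o with
  | none => rfl
  | some none => rfl
  | some (some i) => rfl

theorem comb_gen_emb (a : Fin (D + 1) → ℕ) :
    comb (gen m k D) (emb a) = (∑ i, a i) * (m * ((k + 1) ^ D + 1)) +
        ((∑ i, a i) + k * ∑ i, a i * rr (k + 1) D i) := by
  rw [comb_gen, xpart_emb]
  simp [emb]

theorem apply_le_sum (a : Fin (D + 1) → ℕ) (i : Fin (D + 1)) : a i ≤ ∑ i, a i :=
  Finset.single_le_sum (f := a) (fun _ _ => Nat.zero_le _) (Finset.mem_univ i)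

theorem unique_small (hD : 1 ≤ D) (hk : 2 ≤ k) (hm : 2 * (k + 1) ^ (D + 1) ≤ m)
    {a : Fin (D + 1) → ℕ} (ha : ∑ i, a i ≤ k - 1)
    {v : Option (Option (Fin (D + 1))) → ℕ} (h : comb (gen m k D) v = comb (gen m k D) (emb a)) :
    v = emb a := by
  rw [comb_gen, comb_gen_emb] at h
  obtain ⟨h1, h2, h3, h4⟩ := arith hD hk hm ha
    (sum_rr_le (by omega) D (xpart v)) (sum_rr_le (by omega) D a) h
  rw [eq_emb h1 h2]
  congr 1
  refine rr_unique (K := k + 1) (fun i => ?_) (fun i => ?_) h3 h4
  · have := apply_le_sum (xpart v) i; omega
  · have := apply_le_sum a i; omega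

theorem gen_pos (hk : 2 ≤ k) (hm0 : 0 < m) (i : Option (Option (Fin (D + 1)))) :
    0 < gen m k D i := by
  match i with
  | none => exact hm0
  | some none => simp only [gen]; omega
  | some (some i) => simp only [gen]; omega

theorem gen_ge (hk : 2 ≤ k) (i : Option (Option (Fin (D + 1)))) :
    m ≤ gen m k D i := by
  match i with
  | none => exact le_rfl
  | some none =>
    simp only [gen]
    have : m ≤ m * k := Nat.le_mul_of_pos_right _ (by omega)
    omega
  | some (some i) =>
    simp only [gen]
    have : m ≤ m * ((k + 1) ^ D + 1) := Nat.le_mul_of_pos_right _ (by omega)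
    omega

theorem lt_of_hm (hD : 1 ≤ D) (hm : 2 * (k + 1) ^ (D + 1) ≤ m) : k < m := by
  have : k + 1 ≤ (k + 1) ^ (D + 1) := Nat.le_self_pow (by omega) _
  omega

theorem xsum_zero (hD : 1 ≤ D) (hm : 2 * (k + 1) ^ (D + 1) ≤ m)
    {v : Option (Option (Fin (D + 1))) → ℕ} (h : comb (gen m k D) v ≤ m * k + k) :
    xpart v = 0 := by
  have hkm := lt_of_hm hD hm
  rw [comb_gen] at h
  have hs : ∑ i, xpart v i = 0 := by
    by_contra hcon
    have h1 : 1 * (m * ((k + 1) ^ D + 1)) ≤ (∑ i, xpart v i) * (m * ((k + 1) ^ D + 1)) :=
      Nat.mul_le_mul_right _ (by omega)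
    have h2 : k + 1 ≤ (k + 1) ^ D := Nat.le_self_pow (by omega) _
    have h3 : m * (k + 1) ≤ m * ((k + 1) ^ D + 1) := Nat.mul_le_mul_left _ (by omega)
    have h4 : m * (k + 1) = m * k + m := by ring
    omega
  funext i
  have := apply_le_sum (xpart v) i
  simp only [Pi.zero_apply]
  omega

theorem gen_irr (hD : 1 ≤ D) (hk : 2 ≤ k) (hm : 2 * (k + 1) ^ (D + 1) ≤ m)
    (i : Option (Option (Fin (D + 1)))) (v : Option (Option (Fin (D + 1))) → ℕ)
    (h : comb (gen m k D) v = gen m k D i) : v = Pi.single i 1 := by
  have hkm := lt_of_hm hD hm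
  match i with
  | some (some j) =>
    have h1 : emb (Pi.single j 1 : Fin (D + 1) → ℕ) = Pi.single (some (some j)) 1 := by
      funext o
      match o with
      | none => simp [emb]
      | some none => simp [emb]
      | some (some i) =>
        simp only [emb, Pi.single_apply, Option.some.injEq]
    rw [← h1]
    apply unique_small hD hk hm
    · rw [Finset.sum_pi_single']
      simp; omega
    · rw [h, h1, comb_single, one_mul]
  | some none =>
    have hx := xsum_zero hD hm (v := v) (by rw [h]; exact le_rfl)
    rw [comb_gen, hx] at h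
    simp only [Pi.zero_apply, Finset.sum_const_zero, zero_mul, mul_zero, add_zero, gen] at h
    have hc1 : v (some none) ≤ 1 := by
      by_contra hcon
      have : 2 * (m * k + k) ≤ v (some none) * (m * k + k) := Nat.mul_le_mul_right _ (by omega)
      omega
    have hc2 : v (some none) ≠ 0 := by
      intro h0
      rw [h0, zero_mul, add_zero] at h
      have h5 : v none * m = k + m * k := by rw [h]; ring
      have := congrArg (· % m) h5
      simp only [Nat.mul_mod_left, Nat.add_mul_mod_self_left] at this
      rw [Nat.mod_eq_of_lt hkm] at this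
      omega
    have hc3 : v (some none) = 1 := by omega
    rw [hc3, one_mul] at h
    have h6 : v none * m = 0 := by omega
    have h7 : v none = 0 := by
      rcases Nat.mul_eq_zero.1 h6 with h | h
      · exact h
      · omega
    funext o
    match o with
    | none => simp [h7]
    | some none => simp [hc3]
    | some (some i) =>
      have := congrFun hx i
      simp only [xpart, Pi.zero_apply] at this
      simp [this]
  | none =>
    have hx := xsum_zero hD hm (v := v) (by
      rw [h]
      have : m ≤ m * k := Nat.le_mul_of_pos_right _ (by omega)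
      simp only [gen]; omega)
    rw [comb_gen, hx] at h
    simp only [Pi.zero_apply, Finset.sum_const_zero, zero_mul, mul_zero, add_zero, gen] at h
    have hc : v (some none) = 0 := by
      by_contra hcon
      have h1 : 1 * (m * k + k) ≤ v (some none) * (m * k + k) := Nat.mul_le_mul_right _ (by omega)
      have h2 : m ≤ m * k := Nat.le_mul_of_pos_right _ (by omega)
      omega
    rw [hc, zero_mul, add_zero] at h
    have h7 : v none = 1 := by
      have : v none * m = 1 * m := by omega
      exact Nat.eq_of_mul_eq_mul_right (by omega) this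
    funext o
    match o with
    | none => simp [h7]
    | some none => simp [hc]
    | some (some i) =>
      have := congrFun hx i
      simp only [xpart, Pi.zero_apply] at this
      simp [this]

theorem isolated_emb (hD : 1 ≤ D) (hk : 2 ≤ k) (hm : 2 * (k + 1) ^ (D + 1) ≤ m)
    {a : Fin (D + 1) → ℕ} (ha : ∑ i, a i = k) : Isolated (comb (gen m k D)) (emb a) where
  iso := by
    intro v c a' b' hac hbc hv hc
    have hc1 : c none = 0 := by
      have := congrFun hac none
      simp only [Pi.add_apply, emb] at this; omega
    have hc2 : c (some none) = 0 := by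
      have := congrFun hac (some none)
      simp only [Pi.add_apply, emb] at this; omega
    have ha1 : a' none = 0 := by
      have := congrFun hac none
      simp only [Pi.add_apply, emb] at this; omega
    have ha2 : a' (some none) = 0 := by
      have := congrFun hac (some none)
      simp only [Pi.add_apply, emb] at this; omega
    have hsum : ∑ i, xpart a' i + ∑ i, xpart c i = k := by
      rw [← ha, ← Finset.sum_add_distrib]
      refine Finset.sum_congr rfl (fun i _ => ?_)
      have := congrFun hac (some (some i))
      simpa [emb, xpart] using this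
    have hcpos : ∑ i, xpart c i ≠ 0 := by
      intro h0
      apply hc
      rw [eq_emb hc1 hc2]
      funext o
      match o with
      | none => rfl
      | some none => rfl
      | some (some i) =>
        have := apply_le_sum (xpart c) i
        simp only [emb, Pi.zero_apply]; omega
    have hval : comb (gen m k D) b' = comb (gen m k D) (emb (xpart a')) := by
      rw [← eq_emb ha1 ha2]
      rw [← hbc, ← hac, map_add, map_add] at hv
      exact Nat.add_right_cancel hv
    have := unique_small hD hk hm (by omega) hval
    rw [← hbc, this, ← eq_emb ha1 ha2, hac]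
  other := by
    have hK := sum_rr_le (K := k + 1) (by omega) D a
    set S := ∑ i, a i * rr (k + 1) D i with hS
    set Q := (k + 1) ^ D with hQ
    rw [ha] at hK
    have hSQ : S < Q := by
      have hQ1 : 0 < Q := Nat.pos_of_ne_zero (by positivity)
      nlinarith
    refine ⟨fun o => match o with
      | none => k * (Q - S)
      | some none => 1 + S
      | some (some _) => 0, ?_, ?_⟩
    · rw [comb_gen_emb, comb_gen, ha]
      simp only [xpart, Finset.sum_const_zero, zero_mul, mul_zero, add_zero]
      rw [← hS, ← hQ]
      obtain ⟨d, hd⟩ : ∃ d, Q = S + d := ⟨Q - S, by omega⟩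
      rw [hd, Nat.add_sub_cancel_left]
      ring
    · intro h
      have h1 : ∀ i, a i = 0 := by
        intro i
        have := congrFun h (some (some i))
        simp only [emb] at this
        exact this.symm
      rw [Finset.sum_eq_zero (fun i _ => h1 i)] at ha
      omega
  pos := by
    intro a h
    exact comb_pos (gen_pos hk (by have := lt_of_hm hD hm; omega)) a h

theorem emb_injective : Function.Injective (emb (D := D)) := by
  intro a b h
  funext i
  exact congrFun h (some (some i))

/-- The lower bound family. -/
theorem family (hD : 1 ≤ D) (hk : 2 ≤ k) (hm : 2 * (k + 1) ^ (D + 1) ≤ m) :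
    ∃ Γ : AddSubmonoid ℕ, IsNumerical Γ ∧ edim Γ = D + 3 ∧ mult Γ = m ∧
      (D + k).choose k ≤ rho Γ := by
  classical
  have hkm := lt_of_hm hD hm
  have hpos := gen_pos (m := m) (D := D) hk (by omega)
  have hirr := gen_irr hD hk hm
  have hcard : Fintype.card (Option (Option (Fin (D + 1)))) = D + 2 + 1 := by simp
  have hnum : IsNumerical (AddMonoidHom.mrange (comb (gen m k D))) := by
    apply numerical_mrange (m := m) (i₀ := none) (i₁ := some (some 0)) (by omega) rfl
      (q := (k + 1) ^ D + 1)
    simp [gen, rr]
  refine ⟨AddMonoidHom.mrange (comb (gen m k D)), hnum, ?_, ?_, ?_⟩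
  · rw [edim_mrange hpos hirr, hcard]
  · exact mult_mrange (i₀ := none) (by omega) rfl (gen_ge hk)
  · let U : Finset (Option (Option (Fin (D + 1))) → ℕ) :=
      ((univ : Finset (Fin (D + 1))).finsuppAntidiag k).image
        (fun a : Fin (D + 1) →₀ ℕ => emb (fun i => a i))
    have hUmem : ∀ u ∈ U, ∃ a : Fin (D + 1) → ℕ, ∑ i, a i = k ∧ emb a = u := by
      intro u hu
      rw [Finset.mem_image] at hu
      obtain ⟨a, ha, rfl⟩ := hu
      rw [Finset.mem_finsuppAntidiag] at ha
      exact ⟨a, ha.1, rfl⟩
    have hUcard : U.card = (D + k).choose k := by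
      rw [Finset.card_image_of_injective, card_finsuppAntidiag_nat_eq_choose]
      · simp only [Finset.card_univ, Fintype.card_fin]
        congr 1
        omega
      · intro a b hab
        exact DFunLike.coe_injective (emb_injective (D := D) hab)
    rw [← hUcard]
    apply rho_mrange_ge (e := D + 2) (by omega) hpos hirr hcard hnum
    · intro u hu
      obtain ⟨a, ha, rfl⟩ := hUmem u hu
      exact isolated_emb hD hk hm ha
    · intro u hu v hv huv
      obtain ⟨a, ha, rfl⟩ := hUmem u hu
      obtain ⟨b, hb, rfl⟩ := hUmem v hv
      rw [comb_gen_emb, comb_gen_emb, ha, hb] at huv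
      have h1 : k * ∑ i, a i * rr (k + 1) D i = k * ∑ i, b i * rr (k + 1) D i := by omega
      have h2 := Nat.eq_of_mul_eq_mul_left (by omega) h1
      rw [rr_unique (K := k + 1) (fun i => by have := apply_le_sum a i; omega)
        (fun i => by have := apply_le_sum b i; omega) (by rw [ha, hb]) h2]

end

end MPc709de
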