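import Pool.Agent.Work.MP_c709de_al.Family2

/-! The order of growth of `R(e,m)`. -/

namespace MPc709de

open Finset

theorem maxRho_le {e : ℕ} (he : 2 ≤ e) (T m : ℕ) (hT : m ≤ T ^ (e - 1)) :
    maxRho e m ≤ ((1 + e * ((T + 1) ^ (e - 2) + (e - 1) * T ^ (e - 2)) : ℕ) : ℕ∞) := by
  unfold maxRho
  apply iSup_le
  rintro ⟨Γ, hnum, hed, hmult⟩
  have := (rho_le hnum he hed T (by rw [hmult]; exact hT)).2
  exact_mod_cast this

theorem le_maxRho {e m n : ℕ} {Γ : AddSubmonoid ℕ} (h1 : IsNumerical Γ) (h2 : edim Γ = e + 1)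
    (h3 : mult Γ = m) (h4 : n ≤ rho Γ) : (n : ℕ∞) ≤ maxRho e m := by
  unfold maxRho
  refine le_trans ?_ (le_iSup _ (⟨Γ, h1, h2, h3⟩ :
    {Γ : AddSubmonoid ℕ // IsNumerical Γ ∧ edim Γ = e + 1 ∧ mult Γ = m}))
  exact_mod_cast h4

theorem choose_le_maxRho {e k m : ℕ} (he : 3 ≤ e) (hk : 2 ≤ k) (hm : 2 * (k + 1) ^ (e - 1) ≤ m) :
    (((e - 2 + k).choose k : ℕ) : ℕ∞) ≤ maxRho e m := by
  obtain ⟨D, rfl⟩ : ∃ D, e = D + 2 := ⟨e - 2, by omega⟩
  obtain ⟨Γ, h1, h2, h3, h4⟩ := family (D := D) (by omega) hk hm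
  exact le_maxRho h1 h2 h3 h4

/-- the semigroup `⟨m, m+1, …, m+e⟩`. -/
theorem one_le_maxRho {e m : ℕ} (he : 2 ≤ e) (hem : e < m) : (1 : ℕ∞) ≤ maxRho e m := by
  let h : Fin (e + 1) → ℕ := fun i => m + i
  have hpos : ∀ i, 0 < h i := fun i => by simp only [h]; omega
  have hirr : ∀ i a, comb h a = h i → a = Pi.single i 1 := by
    intro i a hia
    have h1 : (∑ j, a j) * m ≤ comb h a := by
      rw [comb_apply, Finset.sum_mul]
      exact Finset.sum_le_sum (fun j _ => Nat.mul_le_mul_left _ (by simp only [h]; omega))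
    have hi : h i < 2 * m := by
      have := i.2
      simp only [h]; omega
    have h2 : ∑ j, a j < 2 := by
      by_contra hcon
      have : 2 * m ≤ (∑ j, a j) * m := Nat.mul_le_mul_right _ (by omega)
      omega
    obtain ⟨j, hj⟩ : ∃ j, a j ≠ 0 := by
      by_contra hcon
      push Not at hcon
      have : a = 0 := funext hcon
      rw [this, map_zero] at hia
      have := hpos i
      omega
    have h3 : ∀ x, x ≠ j → a x = 0 := by
      intro x hx
      have h4 : a x + a j ≤ ∑ i, a i := by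
        rw [← Finset.sum_pair hx]
        exact Finset.sum_le_sum_of_subset (by intro y _; exact Finset.mem_univ y)
      omega
    have h5 : a j ≤ ∑ i, a i :=
      Finset.single_le_sum (f := a) (fun _ _ => Nat.zero_le _) (Finset.mem_univ j)
    have h6 : a = Pi.single j 1 := by
      funext x
      by_cases hx : x = j
      · subst hx; simp; omega
      · simp [hx, h3 x hx]
    rw [h6, comb_single, one_mul] at hia
    have h7 : j = i := by
      apply Fin.ext
      simp only [h] at hia; omega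
    rw [h6, h7]
  have hcard : Fintype.card (Fin (e + 1)) = e + 1 := by simp
  have hnum : IsNumerical (AddMonoidHom.mrange (comb h)) := by
    apply numerical_mrange (m := m) (i₀ := 0) (i₁ := ⟨1, by omega⟩) (by omega) (by simp [h])
      (q := 1)
    simp [h]
  have hed := edim_mrange hpos hirr
  rw [hcard] at hed
  have hmult : mult (AddMonoidHom.mrange (comb h)) = m :=
    mult_mrange (i₀ := 0) (by omega) (by simp [h]) (fun i => by simp only [h]; omega)
  have hrho : 1 ≤ rho (AddMonoidHom.mrange (comb h)) := by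
    set Γ := AddMonoidHom.mrange (comb h) with hΓ
    have hpow : mult Γ ≤ (mult Γ) ^ (e - 1) := Nat.le_self_pow (by omega) _
    obtain ⟨⟨R, hR⟩, -⟩ := rho_le hnum he hed (mult Γ) hpow
    have hi := h_injective hirr
    have hr := minGens_mrange hpos hirr
    have hne : ∃ R, GenKer (comb h) R := by
      have h2 : comb h = (factor Γ).comp (expEquiv hi hr).symm.toAddMonoidHom := by
        rw [factor_eq hi hr]; ext x; simp
      rw [h2]
      exact ⟨_, hR.comp_equiv _⟩
    rw [rho_eq hi hr hne]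
    apply le_presRank hne
    intro R' hR'
    by_contra hcon
    have hR0 : R' = ∅ := by
      rw [← Finset.card_eq_zero]; omega
    subst hR0
    have hbot : addConGen (fun a b : Fin (e + 1) → ℕ => (a, b) ∈
        (∅ : Finset ((Fin (e + 1) → ℕ) × (Fin (e + 1) → ℕ)))) ≤ ⊥ := by
      rw [AddCon.addConGen_le]
      intro a b hab
      exact absurd hab (Finset.notMem_empty _)
    have hk : (AddCon.ker (comb h)) (Pi.single 0 (m + 1)) (Pi.single ⟨1, by omega⟩ m) := by
      rw [AddCon.ker_rel, comb_single, comb_single]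
      simp only [h, Fin.val_zero, add_zero]
      ring
    rw [← hR'] at hk
    have h8 := hbot hk
    have h9 : (Pi.single 0 (m + 1) : Fin (e + 1) → ℕ) = Pi.single ⟨1, by omega⟩ m := h8
    have h10 := congrFun h9 0
    rw [Pi.single_eq_same, Pi.single_eq_of_ne] at h10
    · omega
    · intro h11
      have := congrArg Fin.val h11
      simp at this
  have := le_maxRho hnum hed hmult hrho
  simpa using this

/-- The order of growth of `R(e,m)` for fixed `e`. -/
theorem growth (e : ℕ) (he : 3 ≤ e) : ∃ c C : ℝ, 0 < c ∧ 0 < C ∧ ∀ m : ℕ, e < m →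
    ∃ N : ℕ, maxRho e m = N ∧ c * (m : ℝ) ^ (((e : ℝ) - 2) / ((e : ℝ) - 1)) ≤ N ∧
      (N : ℝ) ≤ C * (m : ℝ) ^ (((e : ℝ) - 2) / ((e : ℝ) - 1)) := by
  obtain ⟨r, rfl⟩ : ∃ r, e = r + 2 := ⟨e - 2, by omega⟩
  have hr : 1 ≤ r := by omega
  have hα : (((r + 2 : ℕ) : ℝ) - 2) / (((r + 2 : ℕ) : ℝ) - 1) = (r : ℝ) / ((r : ℝ) + 1) := by
    push_cast; congr 1 <;> ring
  rw [hα]
  have hrr : (0 : ℝ) < (r : ℝ) + 1 := by positivity
  -- constants
  refine ⟨1 / (2 * 3 ^ (r + 1) * (2 * 2 ^ r * (r.factorial : ℝ))),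
    1 + ((r : ℝ) + 2) * (3 ^ r + ((r : ℝ) + 1) * 3 ^ r), by positivity, by positivity, ?_⟩
  intro m hm
  have hm1 : (1 : ℝ) ≤ m := by exact_mod_cast (by omega : 1 ≤ m)
  have hm0 : (0 : ℝ) ≤ m := by linarith
  set x : ℝ := (m : ℝ) ^ (1 / ((r : ℝ) + 1)) with hx
  have hx1 : 1 ≤ x := Real.one_le_rpow hm1 (by positivity)
  have hxpow : x ^ (r + 1) = m := by
    rw [hx, ← Real.rpow_natCast, ← Real.rpow_mul hm0]
    push_cast
    rw [one_div_mul_cancel hrr.ne', Real.rpow_one]
  have hxr : x ^ r = (m : ℝ) ^ ((r : ℝ) / ((r : ℝ) + 1)) := by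
    rw [hx, ← Real.rpow_natCast, ← Real.rpow_mul hm0]
    congr 1
    ring
  have hμ1 : 1 ≤ x ^ r := one_le_pow₀ hx1
  -- upper bound
  set T := ⌈x⌉₊ with hT
  have hTx : x ≤ T := Nat.le_ceil x
  have hTx' : (T : ℝ) ≤ x + 1 := (Nat.ceil_lt_add_one (by linarith)).le
  have hTm : m ≤ T ^ (r + 2 - 1) := by
    have h1 : (m : ℝ) ≤ (T : ℝ) ^ (r + 1) := by
      rw [← hxpow]; exact pow_le_pow_left₀ (by linarith) hTx _
    have h2 : r + 2 - 1 = r + 1 := by omega
    rw [h2]
    exact_mod_cast h1
  have hup := maxRho_le (e := r + 2) (by omega) T m hTm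
  obtain ⟨N, hN⟩ : ∃ N : ℕ, maxRho (r + 2) m = N := by
    have : maxRho (r + 2) m ≠ ⊤ := ne_top_of_le_ne_top (ENat.coe_ne_top _) hup
    exact ⟨_, (ENat.coe_toNat this).symm⟩
  refine ⟨N, hN, ?_, ?_⟩
  · -- lower bound
    rw [← hxr]
    have hN1 : (1 : ℝ) ≤ N := by
      have := one_le_maxRho (e := r + 2) (m := m) (by omega) hm
      rw [hN] at this
      exact_mod_cast this
    have hfac : (1 : ℝ) ≤ (r.factorial : ℝ) := by
      exact_mod_cast Nat.one_le_iff_ne_zero.2 (Nat.factorial_ne_zero r)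
    have h2r : (1 : ℝ) ≤ 2 ^ r := one_le_pow₀ (by norm_num)
    rw [one_div, inv_mul_le_iff₀ (by positivity)]
    by_cases hbig : 2 * 3 ^ (r + 1) ≤ m
    · -- use the family
      set y : ℝ := ((m : ℝ) / 2) ^ (1 / ((r : ℝ) + 1)) with hy
      have hm2 : (0 : ℝ) ≤ (m : ℝ) / 2 := by positivity
      have hypow : y ^ (r + 1) = m / 2 := by
        rw [hy, ← Real.rpow_natCast, ← Real.rpow_mul hm2]
        push_cast
        rw [one_div_mul_cancel hrr.ne', Real.rpow_one]
      have hy0 : 0 ≤ y := by positivity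
      have hy3 : 3 ≤ y := by
        by_contra hcon
        push Not at hcon
        have h1 : y ^ (r + 1) < 3 ^ (r + 1) := pow_lt_pow_left₀ hcon hy0 (by omega)
        rw [hypow] at h1
        have h2 : ((2 * 3 ^ (r + 1) : ℕ) : ℝ) ≤ m := by exact_mod_cast hbig
        push_cast at h2
        linarith
      set K := ⌊y⌋₊ with hK
      have hK3 : 3 ≤ K := Nat.le_floor (by exact_mod_cast hy3)
      have hKy : (K : ℝ) ≤ y := Nat.floor_le hy0
      have hKy' : y / 2 ≤ K := by
        have := Nat.lt_floor_add_one y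
        rw [← hK] at this
        linarith
      obtain ⟨k, hk⟩ : ∃ k, K = k + 1 := ⟨K - 1, by omega⟩
      have hKm : 2 * (k + 1) ^ (r + 2 - 1) ≤ m := by
        have h2 : r + 2 - 1 = r + 1 := by omega
        rw [h2, ← hk]
        have h1 : (K : ℝ) ^ (r + 1) ≤ m / 2 := by
          rw [← hypow]; exact pow_le_pow_left₀ (by positivity) hKy _
        have h3 : ((2 * K ^ (r + 1) : ℕ) : ℝ) ≤ m := by push_cast; linarith
        exact_mod_cast h3
      have hlow := choose_le_maxRho (e := r + 2) (k := k) (m := m) (by omega) (by omega) hKm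
      rw [hN] at hlow
      have hlow' : (r + k).choose k ≤ N := by
        have h2 : r + 2 - 2 + k = r + k := by omega
        rw [h2] at hlow
        exact_mod_cast hlow
      have hasc : (k + 1) ^ r ≤ r.factorial * (k + r).choose r := by
        rw [← Nat.ascFactorial_eq_factorial_mul_choose]
        exact Nat.pow_succ_le_ascFactorial _ _
      have hch : (k + r).choose r = (r + k).choose k := by
        rw [add_comm k r]
        exact Nat.choose_symm_add
      rw [hch] at hasc
      have h5 : (K : ℝ) ^ r ≤ (r.factorial : ℝ) * N := by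
        rw [hk]
        have : ((k + 1) ^ r : ℕ) ≤ r.factorial * N := hasc.trans (Nat.mul_le_mul_left _ hlow')
        exact_mod_cast this
      have h6 : (y / 2) ^ r ≤ (K : ℝ) ^ r := pow_le_pow_left₀ (by positivity) hKy' _
      have h7 : x ^ r ≤ 2 * y ^ r := by
        have h8 : x ≤ 2 * y ∧ x ^ r ≤ 2 * y ^ r := by
          have h9 : x ^ (r + 1) = 2 * y ^ (r + 1) := by rw [hxpow, hypow]; ring
          have h10 : y ≤ x := by
            by_contra hcon
            push Not at hcon
            have : x ^ (r + 1) < y ^ (r + 1) := pow_lt_pow_left₀ hcon (by linarith) (by omega)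
            have : 0 < y ^ (r + 1) := by positivity
            linarith
          have h11 : x ^ r ≤ 2 * y ^ r := by
            by_contra hcon
            push Not at hcon
            have h12 : 2 * y ^ r * y < x ^ r * x := by
              have hyp : 0 < y := by linarith
              calc 2 * y ^ r * y < x ^ r * y := by
                    apply mul_lt_mul_of_pos_right hcon hyp
                _ ≤ x ^ r * x := by
                    apply mul_le_mul_of_nonneg_left h10 (by positivity)
            rw [pow_succ, pow_succ] at h9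
            linarith
          refine ⟨?_, h11⟩
          by_contra hcon
          push Not at hcon
          have h13 : (2 * y) ^ (r + 1) < x ^ (r + 1) :=
            pow_lt_pow_left₀ hcon (by positivity) (by omega)
          rw [mul_pow, h9] at h13
          have h14 : (2 : ℝ) ≤ 2 ^ (r + 1) := by
            calc (2 : ℝ) = 2 ^ 1 := by norm_num
              _ ≤ 2 ^ (r + 1) := pow_le_pow_right₀ (by norm_num) (by omega)
          have h15 : 0 < y ^ (r + 1) := by positivity
          nlinarith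
        exact h8.2
      have h8 : x ^ r ≤ 2 * 2 ^ r * (r.factorial : ℝ) * N := by
        have h9 : y ^ r = 2 ^ r * (y / 2) ^ r := by
          rw [← mul_pow]; congr 1; ring
        calc x ^ r ≤ 2 * y ^ r := h7
          _ = 2 * (2 ^ r * (y / 2) ^ r) := by rw [h9]
          _ ≤ 2 * (2 ^ r * ((r.factorial : ℝ) * N)) := by
              have := h6.trans h5
              gcongr
          _ = _ := by ring
      have h9 : (1 : ℝ) ≤ 2 * 3 ^ (r + 1) := by
        have : (1 : ℝ) ≤ 3 ^ (r + 1) := one_le_pow₀ (by norm_num)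
        linarith
      calc x ^ r ≤ 1 * (2 * 2 ^ r * (r.factorial : ℝ) * N) := by rw [one_mul]; exact h8
        _ ≤ 2 * 3 ^ (r + 1) * (2 * 2 ^ r * (r.factorial : ℝ) * N) := by
            gcongr
        _ = _ := by ring
    · push Not at hbig
      have h1 : x ^ r ≤ m := by
        rw [← hxpow]
        exact pow_le_pow_right₀ hx1 (by omega)
      have h2 : (m : ℝ) ≤ 2 * 3 ^ (r + 1) := by
        have : ((m : ℕ) : ℝ) ≤ ((2 * 3 ^ (r + 1) : ℕ) : ℝ) := by exact_mod_cast hbig.le
        push_cast at this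
        exact this
      have h3 : (1 : ℝ) ≤ 2 * 2 ^ r * (r.factorial : ℝ) := by nlinarith
      calc x ^ r ≤ 2 * 3 ^ (r + 1) := h1.trans h2
        _ = 2 * 3 ^ (r + 1) * 1 * 1 := by ring
        _ ≤ 2 * 3 ^ (r + 1) * (2 * 2 ^ r * (r.factorial : ℝ)) * N := by gcongr
  · -- upper bound
    rw [hN] at hup
    have hup' : N ≤ 1 + (r + 2) * ((T + 1) ^ r + (r + 1) * T ^ r) := by
      have h1 : r + 2 - 2 = r := by omega
      have h2 : r + 2 - 1 = r + 1 := by omega
      rw [h1, h2] at hup
      exact_mod_cast hup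
    have h1 : (N : ℝ) ≤ 1 + ((r : ℝ) + 2) * (((T : ℝ) + 1) ^ r + ((r : ℝ) + 1) * (T : ℝ) ^ r) := by
      exact_mod_cast hup'
    rw [← hxr]
    have h2 : ((T : ℝ) + 1) ^ r ≤ 3 ^ r * x ^ r := by
      rw [← mul_pow]
      exact pow_le_pow_left₀ (by positivity) (by linarith) _
    have h3 : (T : ℝ) ^ r ≤ 3 ^ r * x ^ r := by
      rw [← mul_pow]
      exact pow_le_pow_left₀ (by positivity) (by linarith) _
    calc (N : ℝ) ≤ _ := h1
      _ ≤ x ^ r + ((r : ℝ) + 2) * (3 ^ r * x ^ r + ((r : ℝ) + 1) * (3 ^ r * x ^ r)) := by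
          gcongr
      _ = _ := by ring

end MPc709de
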