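import Pool.Agent.Work.MP_c709de_al.Range

/-! A stronger lower bound for the number of relations: isolated factorizations with equal
values are allowed. -/

namespace MPc709de

open Finset

section

variable {M : Type*} [AddCommMonoid M] [IsCancelAdd M]

/-- `u` is an isolated factorization. -/
structure Iso (f : M →+ ℕ) (u : M) : Prop where
  iso : ∀ v c a b, a + c = u → b + c = v → f v = f u → c ≠ 0 → v = u
  pos : ∀ a, f a = 0 → a = 0

/-- The congruence attached to a function supported on isolated elements. -/
def ellCon (f : M →+ ℕ) (l : M → ℚ) (h : ∀ u, l u ≠ 0 → Iso f u) : AddCon M where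
  r a b := f a = f b ∧ l a = l b
  iseqv := ⟨fun _ => ⟨rfl, rfl⟩, fun h => ⟨h.1.symm, h.2.symm⟩,
    fun h1 h2 => ⟨h1.1.trans h2.1, h1.2.trans h2.2⟩⟩
  add' := by
    have key : ∀ {a b c d : M}, f a = f b → l a = l b → f c = f d → l c = l d →
        l (a + c) ≠ 0 → l (a + c) = l (b + d) := by
      intro a b c d hab hab' hcd hcd' hac
      have hI := h _ hac
      by_cases ha : a = 0
      · subst ha
        have hb : b = 0 := hI.pos b (by rw [← hab, map_zero])
        subst hb
        rw [zero_add, zero_add]
        exact hcd'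
      by_cases hc : c = 0
      · subst hc
        have hd : d = 0 := hI.pos d (by rw [← hcd, map_zero])
        subst hd
        rw [add_zero, add_zero]
        exact hab'
      have h1 : b + c = a + c := by
        apply hI.iso (b + c) c a b rfl rfl _ hc
        rw [map_add, map_add, hab]
      have h2 : b = a := add_right_cancel h1
      subst h2
      have h3 : d + b = b + c := by
        apply hI.iso (d + b) b c d (add_comm _ _) rfl _ ha
        rw [map_add, map_add, hcd, add_comm]
      rw [add_comm b d, h3]
    intro a b c d hab hcd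
    refine ⟨by rw [map_add, map_add, hab.1, hcd.1], ?_⟩
    by_cases h1 : l (a + c) = 0
    · by_cases h2 : l (b + d) = 0
      · rw [h1, h2]
      · exact (key hab.1.symm hab.2.symm hcd.1.symm hcd.2.symm h2).symm
    · exact key hab.1 hab.2 hcd.1 hcd.2 h1

theorem card_le_of_iso {f : M →+ ℕ} {U : Finset M} (hU : ∀ u ∈ U, Iso f u)
    (hother : ∀ u ∈ U, ∃ v, v ∉ U ∧ f v = f u) {R : Finset (M × M)} (hR : GenKer f R) :
    U.card ≤ R.card := by
  classical
  -- vectors
  let d : M → (U → ℚ) := fun x => if hx : x ∈ U then Pi.single ⟨x, hx⟩ 1 else 0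
  let V : Finset (U → ℚ) := R.image (fun p => d p.1 - d p.2)
  have hspan : Submodule.span ℚ (V : Set (U → ℚ)) = ⊤ := by
    by_contra hne
    obtain ⟨φ, hφ0, hφ⟩ := Submodule.exists_le_ker_of_lt_top _ (lt_top_iff_ne_top.2 hne)
    let l : M → ℚ := fun x => φ (d x)
    have hl : ∀ u, l u ≠ 0 → Iso f u := by
      intro u hu
      apply hU
      by_contra hcon
      apply hu
      simp only [l, d, dif_neg hcon, map_zero]
    have hle : addConGen (fun a b => (a, b) ∈ R) ≤ ellCon f l hl := by
      rw [AddCon.addConGen_le]
      intro a b hab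
      have h1 : (AddCon.ker f) a b := by
        rw [← hR]; exact AddConGen.Rel.of _ _ hab
      rw [AddCon.ker_rel] at h1
      refine ⟨h1, ?_⟩
      have h2 : d a - d b ∈ Submodule.span ℚ (V : Set (U → ℚ)) := by
        apply Submodule.subset_span
        simp only [V, Finset.coe_image, Set.mem_image, Finset.mem_coe]
        exact ⟨(a, b), hab, rfl⟩
      have h3 := hφ h2
      rw [LinearMap.mem_ker, map_sub, sub_eq_zero] at h3
      exact h3
    apply hφ0
    apply LinearMap.pi_ext'
    intro u
    apply LinearMap.ext_ring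
    obtain ⟨v, hv, hvu⟩ := hother u u.2
    have h4 : (AddCon.ker f) v u := by rw [AddCon.ker_rel]; exact hvu
    rw [← hR] at h4
    have h5 := (hle h4).2
    have h6 : l v = 0 := by simp only [l, d, dif_neg hv, map_zero]
    have h7 : l u = φ (Pi.single u 1) := by
      simp only [l, d, dif_pos u.2]
    simp only [LinearMap.coe_comp, Function.comp_apply, LinearMap.coe_single, LinearMap.zero_apply]
    rw [← h7, ← h5, h6]
  have h1 : Module.finrank ℚ (Submodule.span ℚ (V : Set (U → ℚ))) ≤ V.card :=
    finrank_span_finset_le_card V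
  rw [hspan, finrank_top, Module.finrank_fintype_fun_eq_card, Fintype.card_coe] at h1
  exact h1.trans Finset.card_image_le

end

/-- The general lower bound for `rho`. -/
theorem rho_mrange_ge' {ι : Type*} [Fintype ι] [DecidableEq ι] {h : ι → ℕ}
    {e : ℕ} (he : 2 ≤ e) (hpos : ∀ i, 0 < h i)
    (hirr : ∀ i a, comb h a = h i → a = Pi.single i 1) (hcard : Fintype.card ι = e + 1)
    (hnum : IsNumerical (AddMonoidHom.mrange (comb h))) {n : ℕ}
    (hn : ∀ R, GenKer (comb h) R → n ≤ R.card) :
    n ≤ rho (AddMonoidHom.mrange (comb h)) := by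
  set Γ := AddMonoidHom.mrange (comb h) with hΓ
  have hed : edim Γ = e + 1 := by rw [← hcard]; exact edim_mrange hpos hirr
  have hpow : mult Γ ≤ (mult Γ) ^ (e - 1) := Nat.le_self_pow (by omega) _
  obtain ⟨⟨R, hR⟩, -⟩ := rho_le hnum he hed (mult Γ) hpow
  have hi := h_injective hirr
  have hr := minGens_mrange hpos hirr
  have hne : ∃ R, GenKer (comb h) R := by
    have h2 : comb h = (factor Γ).comp (expEquiv hi hr).symm.toAddMonoidHom := by
      rw [factor_eq hi hr]; ext x; simp
    rw [h2]
    exact ⟨_, hR.comp_equiv _⟩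
  rw [rho_eq hi hr hne]
  exact le_presRank hne hn

end MPc709de
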