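import Pool.Agent.Work.MP_c709de_al.Cubic

/-! The numerical semigroup attached to a Sidon set, and its isolated factorizations. -/

namespace MPc709de

open Finset

section

variable {k t m L : ℕ}

/-- data of the construction -/
structure Data (m k t L : ℕ) where
  ht : t ≤ k
  a : Fin (k + 1) → ℕ
  sidon : IsSidon a
  lt : ∀ i, L < a i
  le : ∀ i, a i ≤ 2 * L + 1
  hm : 4 * L + 2 < m

namespace Data

variable (D : Data m k t L)

/-- index type of the generators other than `m` -/
abbrev K : Type := {r // r ∈ GG m D.a D.ht}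

open Classical in
/-- weight -/
noncomputable def w (r : ℕ) : ℕ := if ∃ i, D.a i = r then 4 else 6

theorem w_a (i : Fin (k + 1)) : D.w (D.a i) = 4 := by
  unfold w; rw [if_pos ⟨i, rfl⟩]

theorem w_cases (r : ℕ) : (D.w r = 4 ∧ ∃ i, D.a i = r) ∨ D.w r = 6 := by
  unfold w
  split_ifs with h
  · exact Or.inl ⟨rfl, h⟩
  · exact Or.inr rfl

theorem w_ge (r : ℕ) : 4 ≤ D.w r := by rcases D.w_cases r with h | h <;> omega

theorem w_le (r : ℕ) : D.w r ≤ 6 := by rcases D.w_cases r with h | h <;> omega

/-- the generators other than `m` -/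
noncomputable def g (r : D.K) : ℕ := m * D.w r + r

theorem K_pos (r : D.K) : 0 < (r : ℕ) := by
  have := (mem_GG m D.a D.ht r).1 r.2; omega

theorem K_lt (r : D.K) : (r : ℕ) < m := ((mem_GG m D.a D.ht r).1 r.2).2.1

theorem K_not (r : D.K) : (r : ℕ) ∉ Sums D.a D.ht := ((mem_GG m D.a D.ht r).1 r.2).2.2

include D in
theorem m_pos : 0 < m := by have := D.hm; omega

theorem a_mem (i : Fin (k + 1)) : D.a i ∈ GG m D.a D.ht := by
  rw [mem_GG]
  have h1 := D.lt i
  have h2 := D.le i
  have h3 := D.hm
  refine ⟨by omega, by omega, ?_⟩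
  rw [mem_Sums]
  rintro ⟨p, q, -, h⟩
  have := D.lt p
  have := D.lt q
  omega

/-- the Sidon elements -/
def al (i : Fin (k + 1)) : D.K := ⟨D.a i, D.a_mem i⟩

theorem a_inj {i j : Fin (k + 1)} (h : D.a i = D.a j) : i = j := by
  have := D.sidon i i j j (by rw [h])
  rcases this with h | h <;> exact h.1

theorem al_inj : Function.Injective D.al := by
  intro i j h
  exact D.a_inj (congrArg Subtype.val h)

theorem g_al (i : Fin (k + 1)) : D.g (D.al i) = m * 4 + D.a i := by
  change m * D.w (D.a i) + D.a i = _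
  rw [D.w_a]

theorem g_ge (r : D.K) : m * 4 + r ≤ D.g r := by
  unfold g
  have := Nat.mul_le_mul_left m (D.w_ge r)
  omega

theorem g_lt (r : D.K) : D.g r < m * 7 := by
  unfold g
  have := Nat.mul_le_mul_left m (D.w_le r)
  have := D.K_lt r
  omega

/-- the value homomorphism -/
noncomputable def F : ℕ × Multiset D.K →+ ℕ := mval m D.g

theorem F_apply (p : ℕ × Multiset D.K) : D.F p = p.1 * m + (p.2.map D.g).sum := rfl

theorem F_ge (p : ℕ × Multiset D.K) : p.1 * m + m * 4 * Multiset.card p.2 ≤ D.F p := by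
  rw [F_apply]
  apply Nat.add_le_add_left
  have h := Multiset.card_nsmul_le_sum (s := p.2.map D.g) (a := m * 4) (by
    intro x hx
    rw [Multiset.mem_map] at hx
    obtain ⟨r, -, rfl⟩ := hx
    have := D.g_ge r
    omega)
  rw [Multiset.card_map, smul_eq_mul] at h
  rw [mul_comm]; exact h

theorem F_zero_card {p : ℕ × Multiset D.K} (h : Multiset.card p.2 = 0) : D.F p = p.1 * m := by
  rw [Multiset.card_eq_zero] at h
  rw [F_apply, h]; simp

theorem card_bound {p : ℕ × Multiset D.K} {n : ℕ} (h : D.F p < m * 4 * n) :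
    Multiset.card p.2 < n := by
  by_contra hcon
  push Not at hcon
  have h1 := D.F_ge p
  have h2 : m * 4 * n ≤ m * 4 * Multiset.card p.2 := Nat.mul_le_mul_left _ hcon
  omega

theorem res_eq {x y u v : ℕ} (hx : x < m) (hy : y < m) (h : u * m + x = v * m + y) :
    u = v ∧ x = y := by
  have h1 : (u * m + x) % m = (v * m + y) % m := by rw [h]
  rw [Nat.mul_add_mod', Nat.mul_add_mod', Nat.mod_eq_of_lt hx, Nat.mod_eq_of_lt hy] at h1
  subst h1
  have h2 : u * m = v * m := by omega
  exact ⟨Nat.eq_of_mul_eq_mul_right (by omega) h2, rfl⟩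

/-- `F p = 0` -/
theorem rigid_zero {p : ℕ × Multiset D.K} (h : D.F p = 0) : p = 0 := by
  have hm := D.m_pos
  have h1 : Multiset.card p.2 < 1 := D.card_bound (by rw [h]; omega)
  have h2 : Multiset.card p.2 = 0 := by omega
  rw [D.F_zero_card h2] at h
  have h3 : p.1 = 0 := by
    rcases Nat.mul_eq_zero.1 h with h | h
    · exact h
    · omega
  rw [Multiset.card_eq_zero] at h2
  exact Prod.ext h3 h2

/-- generators are irreducible -/
theorem rigid_one {p : ℕ × Multiset D.K} {r : D.K} (h : D.F p = D.g r) : p = (0, {r}) := by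
  have hm := D.m_pos
  have h1 : Multiset.card p.2 < 2 := D.card_bound (by have := D.g_lt r; rw [h]; omega)
  rcases Nat.lt_or_ge (Multiset.card p.2) 1 with h2 | h2
  · exfalso
    have h2 : Multiset.card p.2 = 0 := by omega
    rw [D.F_zero_card h2] at h
    have h3 : p.1 * m + 0 = D.w r * m + r := by rw [add_zero, h]; unfold g; ring
    have := (res_eq hm (D.K_lt r) h3).2
    have := D.K_pos r
    omega
  · have h3 : Multiset.card p.2 = 1 := by omega
    rw [Multiset.card_eq_one] at h3
    obtain ⟨x, hx⟩ := h3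
    rw [F_apply, hx, Multiset.map_singleton, Multiset.sum_singleton] at h
    have h4 : (p.1 + D.w x) * m + x = D.w r * m + r := by
      unfold g at h
      calc (p.1 + D.w x) * m + x = p.1 * m + (m * D.w x + x) := by ring
        _ = m * D.w r + r := h
        _ = _ := by ring
    obtain ⟨h5, h6⟩ := res_eq (D.K_lt x) (D.K_lt r) h4
    have h7 : x = r := Subtype.ext h6
    subst h7
    have h8 : p.1 = 0 := by omega
    exact Prod.ext h8 hx

theorem irr_m {p : ℕ × Multiset D.K} (h : D.F p = m) : p = (1, 0) := by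
  have hm := D.m_pos
  have h1 : Multiset.card p.2 < 1 := D.card_bound (by rw [h]; omega)
  have h2 : Multiset.card p.2 = 0 := by omega
  rw [D.F_zero_card h2] at h
  have h3 : p.1 * m = 1 * m := by omega
  have h4 := Nat.eq_of_mul_eq_mul_right hm h3
  rw [Multiset.card_eq_zero] at h2
  exact Prod.ext h4 h2

/-- sums of two Sidon elements have one factorization -/
theorem rigid_two {p : ℕ × Multiset D.K} {i j : Fin (k + 1)} (hij : s(i, j) ∈ QQ k t D.ht)
    (h : D.F p = D.g (D.al i) + D.g (D.al j)) : p = (0, {D.al i, D.al j}) := by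
  have hm := D.m_pos
  have hm' := D.hm
  have hi := D.le i
  have hj := D.le j
  have hi' := D.lt i
  rw [g_al, g_al] at h
  have h1 : Multiset.card p.2 < 3 := D.card_bound (by rw [h]; omega)
  have hmem : D.a i + D.a j ∈ Sums D.a D.ht := (mem_Sums _ _ _).2 ⟨i, j, hij, rfl⟩
  obtain h2 | h2 | h2 : Multiset.card p.2 = 0 ∨ Multiset.card p.2 = 1 ∨ Multiset.card p.2 = 2 := by
    omega
  · exfalso
    rw [D.F_zero_card h2] at h
    have h3 : p.1 * m + 0 = 8 * m + (D.a i + D.a j) := by omega
    have := (res_eq hm (by omega) h3).2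
    omega
  · exfalso
    rw [Multiset.card_eq_one] at h2
    obtain ⟨x, hx⟩ := h2
    rw [F_apply, hx, Multiset.map_singleton, Multiset.sum_singleton] at h
    have h4 : (p.1 + D.w x) * m + x = 8 * m + (D.a i + D.a j) := by
      unfold g at h
      calc (p.1 + D.w x) * m + x = p.1 * m + (m * D.w x + x) := by ring
        _ = m * 4 + D.a i + (m * 4 + D.a j) := h
        _ = _ := by ring
    have := (res_eq (D.K_lt x) (by omega) h4).2
    apply D.K_not x
    rw [this]; exact hmem
  · rw [Multiset.card_eq_two] at h2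
    obtain ⟨x, y, hx⟩ := h2
    rw [F_apply, hx] at h
    have h3 : (Multiset.map D.g {x, y}).sum = D.g x + D.g y := by simp
    rw [h3] at h
    unfold g at h
    have hwx := D.w_cases x
    have hwy := D.w_cases y
    have hlt : D.a i + D.a j < m := by omega
    have e1 : p.1 * m + m * D.w x + m * D.w y ≤ m * 8 + (D.a i + D.a j) := by omega
    have e2 : (p.1 + D.w x + D.w y) * m < 9 * m := by
      calc (p.1 + D.w x + D.w y) * m = p.1 * m + m * D.w x + m * D.w y := by ring
        _ < _ := by omega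
    have e3 : p.1 + D.w x + D.w y < 9 := Nat.lt_of_mul_lt_mul_right e2
    rcases hwx with ⟨hwx, i', hi'⟩ | hwx
    · rcases hwy with ⟨hwy, j', hj'⟩ | hwy
      · have h0 : p.1 = 0 := by omega
        rw [h0, hwx, hwy] at h
        have h4 : D.a i' + D.a j' = D.a i + D.a j := by omega
        have hx' : D.al i' = x := Subtype.ext hi'
        have hy' : D.al j' = y := Subtype.ext hj'
        rcases D.sidon _ _ _ _ h4 with ⟨rfl, rfl⟩ | ⟨rfl, rfl⟩
        · refine Prod.ext h0 ?_
          rw [hx, hx', hy']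
        · refine Prod.ext h0 ?_
          change p.2 = {D.al j', D.al i'}
          rw [hx, hx', hy', Multiset.pair_comm]
      · omega
    · omega

/-- Every large number has a factorization involving `m`. -/
theorem exists_std (q r : ℕ) (hq : 9 ≤ q) (hr : r < m) :
    ∃ v : ℕ × Multiset D.K, 1 ≤ v.1 ∧ D.F v = q * m + r := by
  rcases Nat.eq_zero_or_pos r with h0 | h0
  · subst h0
    exact ⟨(q, 0), by simp only; omega, by rw [F_apply]; simp⟩
  by_cases hs : r ∈ Sums D.a D.ht
  · rw [mem_Sums] at hs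
    obtain ⟨i, j, -, hij⟩ := hs
    refine ⟨(q - 8, {D.al i, D.al j}), by simp only; omega, ?_⟩
    rw [F_apply]
    have h3 : (Multiset.map D.g {D.al i, D.al j}).sum = D.g (D.al i) + D.g (D.al j) := by simp
    simp only
    rw [h3, g_al, g_al]
    obtain ⟨q', rfl⟩ := Nat.exists_eq_add_of_le hq
    have : 9 + q' - 8 = q' + 1 := by omega
    rw [this, ← hij]; ring
  · have hmem : r ∈ GG m D.a D.ht := (mem_GG _ _ _ _).2 ⟨by omega, hr, hs⟩
    have hw := D.w_le r
    refine ⟨(q - D.w r, {⟨r, hmem⟩}), by simp only; omega, ?_⟩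
    rw [F_apply]
    simp only [Multiset.map_singleton, Multiset.sum_singleton, g]
    have : (q - D.w r) * m + m * D.w r = q * m := by
      rw [Nat.sub_mul, mul_comm m]
      exact Nat.sub_add_cancel (Nat.mul_le_mul_right _ (by omega))
    omega

theorem exists_std' (n : ℕ) (hn : 9 * m ≤ n) :
    ∃ v : ℕ × Multiset D.K, 1 ≤ v.1 ∧ D.F v = n := by
  obtain ⟨v, h1, h2⟩ := D.exists_std (n / m) (n % m)
    ((Nat.le_div_iff_mul_le D.m_pos).2 hn) (Nat.mod_lt _ D.m_pos)
  refine ⟨v, h1, ?_⟩
  rw [h2, mul_comm]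
  exact Nat.div_add_mod n m

end Data

end

end MPc709de
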