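import Pool.Agent.Work.MP_c709de_al.Linear

/-! Isolated factorizations of the Sidon semigroup. -/

namespace MPc709de

open Finset

namespace Data

variable {k t m L : ℕ} (D : Data m k t L)

theorem iso_of_rigid {s : Multiset D.K}
    (h : ∀ s', s' ≤ s → Multiset.card s' < Multiset.card s →
      ∀ p, D.F p = D.F (0, s') → p = (0, s')) : Iso D.F (0, s) := by
  constructor
  · intro v c a b hac hbc hF hc
    have h1 : a.1 + c.1 = 0 := congrArg Prod.fst hac
    have h2 : a.2 + c.2 = s := congrArg Prod.snd hac
    have ha1 : a.1 = 0 := by omega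
    have hc1 : c.1 = 0 := by omega
    have hc2 : 0 < Multiset.card c.2 := by
      rw [Multiset.card_pos]
      intro h0
      exact hc (Prod.ext hc1 h0)
    have hcard : Multiset.card a.2 + Multiset.card c.2 = Multiset.card s := by
      rw [← Multiset.card_add, h2]
    have ha : a = (0, a.2) := Prod.ext ha1 rfl
    have h3 : D.F b = D.F (0, a.2) := by
      rw [← ha]
      rw [← hbc, ← hac, map_add, map_add] at hF
      omega
    have h4 := h a.2 (h2 ▸ Multiset.le_add_right _ _) (by omega) b h3
    rw [← ha] at h4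
    rw [← hbc, h4, hac]
  · intro a ha
    exact D.rigid_zero ha

theorem rigid_small {s : Multiset D.K} (h : Multiset.card s < 2) (p : ℕ × Multiset D.K)
    (hp : D.F p = D.F (0, s)) : p = (0, s) := by
  rcases Nat.lt_or_ge (Multiset.card s) 1 with h1 | h1
  · have h2 : Multiset.card s = 0 := by omega
    rw [Multiset.card_eq_zero] at h2
    subst h2
    apply D.rigid_zero
    rw [hp]
    exact map_zero D.F
  · have h2 : Multiset.card s = 1 := by omega
    rw [Multiset.card_eq_one] at h2
    obtain ⟨x, rfl⟩ := h2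
    apply D.rigid_one
    rw [hp, F_apply]
    simp

theorem F_pair (x y : D.K) : D.F (0, {x, y}) = D.g x + D.g y := by
  rw [F_apply]; simp

/-- pairs -/
def pr (z : Sym2 D.K) : ℕ × Multiset D.K := (0, (Sym2.equivMultiset D.K z).1)

theorem pr_mk (x y : D.K) : D.pr s(x, y) = (0, {x, y}) := rfl

theorem pr_injective : Function.Injective D.pr := by
  intro z w h
  have h1 : (Sym2.equivMultiset D.K z).1 = (Sym2.equivMultiset D.K w).1 := congrArg Prod.snd h
  exact (Sym2.equivMultiset D.K).injective (Subtype.ext h1)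

/-- quadratic part -/
def D2 : Finset (ℕ × Multiset D.K) :=
  ((univ : Finset (Sym2 D.K)) \ (QQ k t D.ht).image (Sym2.map D.al)).image D.pr

theorem card_D2 : D.D2.card = ((m - 1 - ((k + 1).choose 2 + t)) + 1).choose 2 -
    ((k + 1).choose 2 + t) := by
  unfold D2
  rw [Finset.card_image_of_injective _ D.pr_injective,
    Finset.card_sdiff_of_subset (Finset.subset_univ _), Finset.card_univ, Sym2.card,
    Fintype.card_coe, card_GG D.ht D.sidon (fun i => ⟨D.lt i, D.le i⟩) D.hm,
    Finset.card_image_of_injective _ (Sym2.map.injective D.al_inj), card_QQ]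

theorem mem_D2 {u : ℕ × Multiset D.K} (hu : u ∈ D.D2) : ∃ x y, u = (0, {x, y}) ∧
    ∀ i j, s(i, j) ∈ QQ k t D.ht → s(x, y) ≠ s(D.al i, D.al j) := by
  unfold D2 at hu
  rw [Finset.mem_image] at hu
  obtain ⟨z, hz, rfl⟩ := hu
  induction z using Sym2.ind with
  | _ x y =>
    refine ⟨x, y, rfl, ?_⟩
    intro i j hij h
    rw [Finset.mem_sdiff] at hz
    apply hz.2
    rw [Finset.mem_image]
    exact ⟨s(i, j), hij, by rw [Sym2.map_mk]; exact h.symm⟩

/-- cubic part, first half -/
def D3a : Finset (ℕ × Multiset D.K) :=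
  (univ : Finset (Sym (Fin k) 3)).image
    (fun σ : Sym (Fin k) 3 => (0, (σ : Multiset (Fin k)).map (fun i => D.al i.castSucc)))

/-- cubic part, second half -/
def D3b : Finset (ℕ × Multiset D.K) :=
  (univ : Finset (Sym (Fin t) 2)).image
    (fun σ : Sym (Fin t) 2 => (0, D.al (Fin.last k) ::ₘ
      (σ : Multiset (Fin t)).map (fun i => D.al (Fin.castSucc (Fin.castLE D.ht i)))))

theorem card_D3a : D.D3a.card = (k + 2).choose 3 := by
  unfold D3a
  rw [Finset.card_image_of_injective, Finset.card_univ, Sym.card_sym_eq_choose, Fintype.card_fin]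
  · rfl
  · intro σ τ h
    have h1 := congrArg Prod.snd h
    simp only at h1
    have hinj : Function.Injective (fun i : Fin k => D.al i.castSucc) :=
      D.al_inj.comp (Fin.castSucc_injective k)
    exact Sym.coe_injective (Multiset.map_injective hinj h1)

theorem card_D3b : D.D3b.card = (t + 1).choose 2 := by
  unfold D3b
  rw [Finset.card_image_of_injective, Finset.card_univ, Sym.card_sym_eq_choose, Fintype.card_fin]
  · rfl
  · intro σ τ h
    have h1 := congrArg Prod.snd h
    simp only at h1
    rw [Multiset.cons_inj_right] at h1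
    have hinj : Function.Injective (fun i : Fin t => D.al (Fin.castSucc (Fin.castLE D.ht i))) :=
      D.al_inj.comp ((Fin.castSucc_injective k).comp (Fin.castLE_injective D.ht))
    exact Sym.coe_injective (Multiset.map_injective hinj h1)

/-- a cubic multiset all whose pairs are of the given form -/
structure Cub (s : Multiset D.K) : Prop where
  card : Multiset.card s = 3
  pairs : ∀ x y, {x, y} ≤ s → ∃ i j, s(i, j) ∈ QQ k t D.ht ∧
    ({x, y} : Multiset D.K) = {D.al i, D.al j}

theorem Cub.iso {s : Multiset D.K} (h : D.Cub s) : Iso D.F (0, s) := by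
  apply D.iso_of_rigid
  intro s' hs' hcard p hp
  rw [h.card] at hcard
  rcases Nat.lt_or_ge (Multiset.card s') 2 with h1 | h1
  · exact D.rigid_small h1 p hp
  · have h2 : Multiset.card s' = 2 := by omega
    rw [Multiset.card_eq_two] at h2
    obtain ⟨x, y, rfl⟩ := h2
    obtain ⟨i, j, hij, he⟩ := h.pairs x y hs'
    rw [he] at hp ⊢
    apply D.rigid_two hij
    rw [hp, F_pair]

theorem cub_D3a {u : ℕ × Multiset D.K} (hu : u ∈ D.D3a) : u.1 = 0 ∧ D.Cub u.2 := by
  unfold D3a at hu
  rw [Finset.mem_image] at hu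
  obtain ⟨σ, -, rfl⟩ := hu
  refine ⟨rfl, ?_, ?_⟩
  · simp only [Multiset.card_map]
    exact σ.2
  · intro x y hxy
    simp only at hxy
    have hx : x ∈ (σ : Multiset (Fin k)).map (fun i => D.al i.castSucc) :=
      Multiset.mem_of_le hxy (by simp)
    have hy : y ∈ (σ : Multiset (Fin k)).map (fun i => D.al i.castSucc) :=
      Multiset.mem_of_le hxy (by simp)
    rw [Multiset.mem_map] at hx hy
    obtain ⟨i, -, rfl⟩ := hx
    obtain ⟨j, -, rfl⟩ := hy
    refine ⟨i.castSucc, j.castSucc, ?_, rfl⟩
    rw [mem_QQ]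
    left
    exact ⟨i.2, j.2⟩

theorem cub_D3b {u : ℕ × Multiset D.K} (hu : u ∈ D.D3b) : u.1 = 0 ∧ D.Cub u.2 := by
  unfold D3b at hu
  rw [Finset.mem_image] at hu
  obtain ⟨σ, -, rfl⟩ := hu
  have hinj : Function.Injective (fun i : Fin t => D.al (Fin.castSucc (Fin.castLE D.ht i))) :=
      D.al_inj.comp ((Fin.castSucc_injective k).comp (Fin.castLE_injective D.ht))
  refine ⟨rfl, ?_, ?_⟩
  · simp only [Multiset.card_cons, Multiset.card_map]
    have := σ.2
    change Multiset.card (σ : Multiset (Fin t)) = 2 at this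
    omega
  · intro x y hxy
    simp only at hxy
    have hx : x ∈ D.al (Fin.last k) ::ₘ
      (σ : Multiset (Fin t)).map (fun i => D.al (Fin.castSucc (Fin.castLE D.ht i))) :=
      Multiset.mem_of_le hxy (by simp)
    have hy : y ∈ D.al (Fin.last k) ::ₘ
      (σ : Multiset (Fin t)).map (fun i => D.al (Fin.castSucc (Fin.castLE D.ht i))) :=
      Multiset.mem_of_le hxy (by simp)
    rw [Multiset.mem_cons, Multiset.mem_map] at hx hy
    have ht := D.ht
    rcases hx with rfl | ⟨i, -, rfl⟩
    · rcases hy with rfl | ⟨j, -, rfl⟩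
      · exfalso
        have h1 := Multiset.count_le_of_le (D.al (Fin.last k)) hxy
        have h2 : D.al (Fin.last k) ∉
            (σ : Multiset (Fin t)).map (fun i => D.al (Fin.castSucc (Fin.castLE D.ht i))) := by
          rw [Multiset.mem_map]
          rintro ⟨i, -, hi⟩
          have := congrArg Fin.val (D.al_inj hi)
          simp at this
          omega
        rw [Multiset.count_cons_self, Multiset.count_eq_zero_of_notMem h2] at h1
        have h3 : Multiset.count (D.al (Fin.last k)) {D.al (Fin.last k), D.al (Fin.last k)} = 2 := by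
          simp
        omega
      · refine ⟨Fin.last k, Fin.castSucc (Fin.castLE D.ht j), ?_, rfl⟩
        rw [mem_QQ]
        right; left
        exact ⟨rfl, j.2⟩
    · rcases hy with rfl | ⟨j, -, rfl⟩
      · refine ⟨Fin.castSucc (Fin.castLE D.ht i), Fin.last k, ?_, rfl⟩
        rw [mem_QQ]
        right; right
        exact ⟨rfl, i.2⟩
      · refine ⟨Fin.castSucc (Fin.castLE D.ht i), Fin.castSucc (Fin.castLE D.ht j), ?_, rfl⟩
        rw [mem_QQ]
        left
        have := i.2
        have := j.2
        simp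
        omega

/-- all isolated factorizations used -/
def U : Finset (ℕ × Multiset D.K) := (D.D2 ∪ D.D3a) ∪ D.D3b

theorem card_U : D.U.card = (((m - 1 - ((k + 1).choose 2 + t)) + 1).choose 2 -
    ((k + 1).choose 2 + t)) + (k + 2).choose 3 + (t + 1).choose 2 := by
  unfold U
  rw [Finset.card_union_of_disjoint, Finset.card_union_of_disjoint, card_D2, card_D3a, card_D3b]
  · rw [Finset.disjoint_left]
    intro u hu hu'
    obtain ⟨x, y, rfl, -⟩ := D.mem_D2 hu
    have := (D.cub_D3a hu').2.card
    simp at this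
  · rw [Finset.disjoint_left]
    intro u hu hu'
    rw [Finset.mem_union] at hu
    rcases hu with hu | hu
    · obtain ⟨x, y, rfl, -⟩ := D.mem_D2 hu
      have := (D.cub_D3b hu').2.card
      simp at this
    · unfold D3a at hu
      unfold D3b at hu'
      rw [Finset.mem_image] at hu hu'
      obtain ⟨σ, -, rfl⟩ := hu
      obtain ⟨τ, -, h⟩ := hu'
      have h1 := congrArg Prod.snd h
      simp only at h1
      have h2 : D.al (Fin.last k) ∈ (σ : Multiset (Fin k)).map (fun i => D.al i.castSucc) := by
        rw [← h1]; exact Multiset.mem_cons_self _ _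
      rw [Multiset.mem_map] at h2
      obtain ⟨i, -, hi⟩ := h2
      have := congrArg Fin.val (D.al_inj hi)
      simp at this
      omega

theorem fst_U {u : ℕ × Multiset D.K} (hu : u ∈ D.U) : u.1 = 0 := by
  unfold U at hu
  rw [Finset.mem_union, Finset.mem_union] at hu
  rcases hu with (hu | hu) | hu
  · obtain ⟨x, y, rfl, -⟩ := D.mem_D2 hu; rfl
  · exact (D.cub_D3a hu).1
  · exact (D.cub_D3b hu).1

theorem iso_U {u : ℕ × Multiset D.K} (hu : u ∈ D.U) : Iso D.F u := by
  unfold U at hu
  rw [Finset.mem_union, Finset.mem_union] at hu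
  rcases hu with (hu | hu) | hu
  · obtain ⟨x, y, rfl, -⟩ := D.mem_D2 hu
    apply D.iso_of_rigid
    intro s' hs' hcard p hp
    apply D.rigid_small _ p hp
    simpa using hcard
  · obtain ⟨h1, h2⟩ := D.cub_D3a hu
    have := Cub.iso D h2
    rw [← h1] at this
    exact this
  · obtain ⟨h1, h2⟩ := D.cub_D3b hu
    have := Cub.iso D h2
    rw [← h1] at this
    exact this

theorem other_U {u : ℕ × Multiset D.K} (hu : u ∈ D.U) : ∃ v, v ∉ D.U ∧ D.F v = D.F u := by
  have key : (∃ v : ℕ × Multiset D.K, 1 ≤ v.1 ∧ D.F v = D.F u) → ∃ v, v ∉ D.U ∧ D.F v = D.F u := by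
    rintro ⟨v, h1, h2⟩
    refine ⟨v, ?_, h2⟩
    intro hv
    have := D.fst_U hv
    omega
  apply key
  unfold U at hu
  rw [Finset.mem_union, Finset.mem_union] at hu
  have hcub : ∀ u : ℕ × Multiset D.K, D.Cub u.2 → ∃ v : ℕ × Multiset D.K, 1 ≤ v.1 ∧
      D.F v = D.F u := by
    intro u hu
    apply D.exists_std'
    have h1 := D.F_ge u
    rw [hu.card] at h1
    omega
  rcases hu with (hu | hu) | hu
  · obtain ⟨x, y, rfl, hxy⟩ := D.mem_D2 hu
    rw [F_pair]
    rcases D.w_cases x with ⟨hwx, i, hi⟩ | hwx
    · rcases D.w_cases y with ⟨hwy, j, hj⟩ | hwy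
      · -- both Sidon
        have hm := D.hm
        have h1 := D.le i
        have h2 := D.le j
        have h3 := D.lt i
        have hx' : D.al i = x := Subtype.ext hi
        have hy' : D.al j = y := Subtype.ext hj
        subst hx'
        subst hy'
        have hns : D.a i + D.a j ∉ Sums D.a D.ht := by
          rw [mem_Sums]
          rintro ⟨p, q, hpq, h4⟩
          rcases D.sidon _ _ _ _ h4 with ⟨rfl, rfl⟩ | ⟨rfl, rfl⟩
          · exact hxy _ _ hpq rfl
          · exact hxy _ _ hpq Sym2.eq_swap
        have hmem : D.a i + D.a j ∈ GG m D.a D.ht := (mem_GG _ _ _ _).2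
          ⟨by omega, by omega, hns⟩
        have hw := D.w_le (D.a i + D.a j)
        refine ⟨(8 - D.w (D.a i + D.a j), {⟨_, hmem⟩}), by simp only; omega, ?_⟩
        rw [F_apply, g_al, g_al]
        simp only [Multiset.map_singleton, Multiset.sum_singleton, g]
        have : (8 - D.w (D.a i + D.a j)) * m + m * D.w (D.a i + D.a j) = 8 * m := by
          rw [Nat.sub_mul, mul_comm m]
          exact Nat.sub_add_cancel (Nat.mul_le_mul_right _ (by omega))
        omega
      · apply D.exists_std'
        have h1 := D.g_ge x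
        unfold g at h1 ⊢
        rw [hwy]
        omega
    · apply D.exists_std'
      have h1 := D.g_ge y
      unfold g at h1 ⊢
      rw [hwx]
      omega
  · exact hcub u (D.cub_D3a hu).2
  · exact hcub u (D.cub_D3b hu).2

end Data

end MPc709de
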