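import Pool.Agent.Work.MP_c709de_al.Linear2
import Pool.Agent.Work.MP_c709de_al.Growth

/-! The lower bound for `R(e,m)` in a linear range. -/

namespace MPc709de

open Finset

namespace Data

variable {k t m L : ℕ} (D : Data m k t L)

/-- all generators -/
noncomputable def h : Option D.K → ℕ := fun o => o.elim m D.g

theorem comb_h (v : Option D.K → ℕ) : comb D.h v = D.F (msEquiv D.K v) := by
  unfold h
  rw [comb_eq_mval]; rfl

theorem h_pos (o : Option D.K) : m ≤ D.h o := by
  match o with
  | none => exact le_rfl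
  | some r =>
    have := D.g_ge r
    change m ≤ D.g r
    omega

theorem h_irr (o : Option D.K) (a : Option D.K → ℕ) (ha : comb D.h a = D.h o) :
    a = Pi.single o 1 := by
  have hs : comb D.h (Pi.single o 1) = D.h o := by rw [comb_single, one_mul]
  rw [comb_h] at ha hs
  apply (msEquiv D.K).injective
  match o with
  | none =>
    rw [D.irr_m ha, D.irr_m hs]
  | some r =>
    rw [D.rigid_one (r := r) ha, D.rigid_one (r := r) hs]

theorem one_mem : 1 ∈ GG m D.a D.ht := by
  rw [mem_GG]
  have h3 := D.hm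
  have h0 := D.lt 0
  have h1 := D.le 0
  refine ⟨by omega, ?_, ?_⟩
  · omega
  · rw [mem_Sums]
    rintro ⟨p, q, -, h⟩
    have := D.lt p
    have := D.lt q
    omega

theorem card_K : Fintype.card (Option D.K) = (m - 1 - ((k + 1).choose 2 + t)) + 1 := by
  rw [Fintype.card_option, Fintype.card_coe,
    card_GG D.ht D.sidon (fun i => ⟨D.lt i, D.le i⟩) D.hm]

include D in
theorem lower {e : ℕ} (he : 2 ≤ e) (hme : m = e + 1 + ((k + 1).choose 2 + t)) :
    ((((e + 1).choose 2 - ((k + 1).choose 2 + t)) + (k + 2).choose 3 + (t + 1).choose 2 : ℕ) : ℕ∞)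
      ≤ maxRho e m := by
  have hm := D.m_pos
  have hpos : ∀ i, 0 < D.h i := fun i => lt_of_lt_of_le hm (D.h_pos i)
  have hcard : Fintype.card (Option D.K) = e + 1 := by rw [card_K]; omega
  have hnum : IsNumerical (AddMonoidHom.mrange (comb D.h)) :=
    numerical_mrange (i₀ := none) (i₁ := some ⟨1, D.one_mem⟩) (q := D.w 1) hm rfl rfl
  refine le_maxRho hnum ?_ (mult_mrange (i₀ := none) hm rfl D.h_pos) ?_
  · rw [edim_mrange hpos D.h_irr, hcard]
  · refine rho_mrange_ge' he hpos D.h_irr hcard hnum ?_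
    intro R hR
    refine genKer_mval ?_ R hR
    intro R' hR'
    have h1 := card_le_of_iso (U := D.U) (fun u hu => D.iso_U hu) (fun u hu => D.other_U hu) hR'
    rw [card_U] at h1
    have h2 : (m - 1 - ((k + 1).choose 2 + t)) + 1 = e + 1 := by omega
    rw [h2] at h1
    exact h1

end Data

theorem linear_range (e k t : ℕ) (hk : 1 ≤ k) (ht : t ≤ k)
    (he : 71 * ((k + 1).choose 2 + t) ≤ e) :
    ((((e + 1).choose 2 - ((k + 1).choose 2 + t)) + (k + 2).choose 3 + (t + 1).choose 2 : ℕ) : ℕ∞)
      ≤ maxRho e (e + 1 + ((k + 1).choose 2 + t)) := by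
  obtain ⟨L, a, ha, hL, hm⟩ := exists_sidon k hk
  have h1 : 72 * (k + 1).choose 2 = 36 * k * (k + 1) := by
    have h2 : (k + 1).choose 2 * 2 = (k + 1) * k := by
      rw [Nat.choose_two_right, Nat.add_sub_cancel]
      exact Nat.div_mul_cancel (by rw [mul_comm]; exact (Nat.even_mul_succ_self k).two_dvd)
    calc 72 * (k + 1).choose 2 = 36 * ((k + 1).choose 2 * 2) := by ring
      _ = 36 * ((k + 1) * k) := by rw [h2]
      _ = _ := by ring
  have h2 : 1 ≤ (k + 1).choose 2 := Nat.choose_pos (by omega)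
  have D : Data (e + 1 + ((k + 1).choose 2 + t)) k t L :=
    { ht := ht
      a := a
      sidon := ha
      lt := fun i => (hL i).1
      le := fun i => (hL i).2
      hm := by omega }
  exact D.lower (by omega) rfl

end MPc709de
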