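import Pool.Agent.Work.MP_c709de_al.Comb

/-! Lower bound for the number of relations: isolated factorizations. -/

namespace MPc709de

open Finset

section

variable {M : Type*} [AddCommMonoid M] [IsCancelAdd M]

/-- `u` is an isolated factorization: any other element of the same value has no nonzero common
part with `u`, and there is another element of the same value. -/
structure Isolated (f : M →+ ℕ) (u : M) : Prop where
  iso : ∀ v c a b, a + c = u → b + c = v → f v = f u → c ≠ 0 → v = u
  other : ∃ v, f v = f u ∧ v ≠ u
  pos : ∀ a, f a = 0 → a = 0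

/-- The congruence: same value, and equal to `u` simultaneously. -/
def isoCon (f : M →+ ℕ) (u : M) (h : Isolated f u) : AddCon M where
  r a b := f a = f b ∧ (a = u ↔ b = u)
  iseqv := ⟨fun _ => ⟨rfl, Iff.rfl⟩, fun h => ⟨h.1.symm, h.2.symm⟩,
    fun h1 h2 => ⟨h1.1.trans h2.1, h1.2.trans h2.2⟩⟩
  add' := by
    have key : ∀ {a b c d : M}, f a = f b → (a = u ↔ b = u) → f c = f d → (c = u ↔ d = u) →
        a + c = u → b + d = u := by
      intro a b c d hab hab' hcd hcd' hac
      by_cases ha : a = 0
      · subst ha
        have hb : b = 0 := h.pos b (by rw [← hab, map_zero])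
        subst hb
        rw [zero_add] at hac ⊢
        exact hcd'.1 hac
      by_cases hc : c = 0
      · subst hc
        have hd : d = 0 := h.pos d (by rw [← hcd, map_zero])
        subst hd
        rw [add_zero] at hac ⊢
        exact hab'.1 hac
      have h1 : b + c = u := by
        apply h.iso (b + c) c a b hac rfl _ hc
        rw [← hac, map_add, map_add, hab]
      have h2 : b = a := by
        have : b + c = a + c := by rw [h1, hac]
        exact add_right_cancel this
      subst h2
      have h3 : d + b = u := by
        apply h.iso (d + b) b c d _ rfl _ ha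
        · rw [add_comm]; exact hac
        · rw [← hac, map_add, map_add, hcd, add_comm]
      rw [add_comm]; exact h3
    intro a b c d hab hcd
    refine ⟨by rw [map_add, map_add, hab.1, hcd.1], ⟨?_, ?_⟩⟩
    · exact key hab.1 hab.2 hcd.1 hcd.2
    · exact key hab.1.symm hab.2.symm hcd.1.symm hcd.2.symm

theorem Isolated.exists_pair {f : M →+ ℕ} {u : M} (h : Isolated f u) {R : Finset (M × M)}
    (hR : GenKer f R) : ∃ p ∈ R, (p.1 = u ∨ p.2 = u) ∧ f p.1 = f u ∧ f p.2 = f u := by
  by_contra hcon
  push Not at hcon
  have hle : addConGen (fun a b => (a, b) ∈ R) ≤ isoCon f u h := by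
    rw [AddCon.addConGen_le]
    intro a b hab
    have h1 : (AddCon.ker f) a b := by
      rw [← hR]; exact AddConGen.Rel.of _ _ hab
    rw [AddCon.ker_rel] at h1
    have h2 := hcon (a, b) hab
    refine ⟨h1, ⟨?_, ?_⟩⟩
    · rintro rfl
      exact absurd h1.symm (h2 (Or.inl rfl) rfl)
    · rintro rfl
      exact absurd rfl (h2 (Or.inr rfl) h1)
  obtain ⟨v, hv, hvu⟩ := h.other
  have h3 : (AddCon.ker f) v u := by rw [AddCon.ker_rel]; exact hv
  rw [← hR] at h3
  have h4 := hle h3
  exact hvu (h4.2.2 rfl)

theorem card_le_of_isolated {f : M →+ ℕ} {U : Finset M} (hU : ∀ u ∈ U, Isolated f u)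
    (hinj : Set.InjOn f U) {R : Finset (M × M)} (hR : GenKer f R) : U.card ≤ R.card := by
  classical
  have h1 : ∀ u : U, ∃ p ∈ R, (p.1 = (u : M) ∨ p.2 = u) ∧ f p.1 = f u ∧ f p.2 = f u :=
    fun u => (hU u u.2).exists_pair hR
  choose g hgR hg hg1 hg2 using h1
  have h2 : Function.Injective (fun u : U => (⟨g u, hgR u⟩ : R)) := by
    intro u v huv
    simp only [Subtype.mk.injEq] at huv
    apply Subtype.ext
    apply hinj u.2 v.2
    rw [← hg1 u, ← hg1 v, huv]
  have := Fintype.card_le_of_injective _ h2
  simpa using this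

end

end MPc709de
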