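import Pool.Agent.Work.MP_c709de_al.Count

/-! Upper bound for `rho Γ`. -/

namespace MPc709de

open Finset

/-- split off the coordinate `none`. -/
noncomputable def optEquiv (κ : Type*) [Fintype κ] : (Option κ → ℕ) ≃+ ℕ × (κ →₀ ℕ) where
  toFun f := (f none, Finsupp.equivFunOnFinite.symm (fun k => f (some k)))
  invFun p := fun o => o.elim p.1 p.2
  left_inv f := by
    funext o
    cases o <;> simp
  right_inv p := by
    ext <;> simp
  map_add' f g := by
    ext <;> simp

theorem mult_mem {Γ : AddSubmonoid ℕ} (h : IsNumerical Γ) : mult Γ ∈ Γ ∧ 0 < mult Γ := by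
  have hne : {n | n ∈ Γ ∧ 0 < n}.Nonempty := by
    by_contra hcon
    rw [Set.not_nonempty_iff_eq_empty] at hcon
    have h1 : (Set.Ioi 0 : Set ℕ) ⊆ (Γ : Set ℕ)ᶜ := by
      intro n hn hn'
      have : n ∈ {n | n ∈ Γ ∧ 0 < n} := ⟨hn', hn⟩
      rw [hcon] at this
      exact this
    exact Set.Ioi_infinite 0 (h.subset h1)
  exact Nat.sInf_mem hne

theorem mult_le {Γ : AddSubmonoid ℕ} {n : ℕ} (hn : n ∈ Γ) (h0 : 0 < n) : mult Γ ≤ n :=
  Nat.sInf_le ⟨hn, h0⟩

theorem mult_mem_minGens {Γ : AddSubmonoid ℕ} (h : IsNumerical Γ) : mult Γ ∈ minGens Γ := by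
  obtain ⟨h1, h2⟩ := mult_mem h
  refine ⟨h1, by omega, ?_⟩
  intro a ha b hb hab
  by_contra hcon
  push Not at hcon
  have h3 := mult_le ha (by omega)
  omega

theorem rho_le {Γ : AddSubmonoid ℕ} (h : IsNumerical Γ) {e : ℕ} (he : 2 ≤ e)
    (hed : edim Γ = e + 1) (T : ℕ) (hT : mult Γ ≤ T ^ (e - 1)) :
    (∃ R, GenKer (factor Γ) R) ∧
    rho Γ ≤ 1 + e * ((T + 1) ^ (e - 2) + (e - 1) * T ^ (e - 2)) := by
  classical
  have hfin : (minGens Γ).Finite := Set.finite_of_ncard_ne_zero (by
    have : (minGens Γ).ncard = e + 1 := hed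
    omega)
  obtain ⟨hm1, hm2⟩ := mult_mem h
  have hmg := mult_mem_minGens h
  set m := mult Γ with hm
  have : Fintype (minGens Γ) := hfin.fintype
  set κ := {x : minGens Γ // (x : ℕ) ≠ m} with hκ
  have hcard1 : Fintype.card (minGens Γ) = e + 1 := by
    have : (minGens Γ).ncard = e + 1 := hed
    rw [← this, Set.ncard_eq_toFinset_card', Set.toFinset_card]
  have hcard : Fintype.card κ = e := by
    have h1 : Fintype.card κ = (univ.erase (⟨m, hmg⟩ : minGens Γ)).card := by
      rw [Fintype.card_subtype]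
      congr 1
      ext x
      simp only [Finset.mem_filter, Finset.mem_univ, true_and, Finset.mem_erase, and_true, ne_eq]
      constructor
      · intro h hx; exact h (by rw [hx])
      · intro h hx; exact h (Subtype.ext hx)
    rw [h1, Finset.card_erase_of_mem (Finset.mem_univ _), Finset.card_univ, hcard1]
    omega
  let hh : Option κ → ℕ := fun o => o.elim m (fun k => (k.1 : ℕ))
  have hinj : Function.Injective hh := by
    intro a b hab
    cases a with
    | none =>
      cases b with
      | none => rfl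
      | some b => exact absurd hab.symm b.2
    | some a =>
      cases b with
      | none => exact absurd hab a.2
      | some b =>
        have : a = b := Subtype.ext (Subtype.ext hab)
        rw [this]
  have hr : Set.range hh = minGens Γ := by
    ext x
    constructor
    · rintro ⟨o, rfl⟩
      cases o with
      | none => exact hmg
      | some k => exact k.1.2
    · intro hx
      by_cases hxm : x = m
      · exact ⟨none, hxm.symm⟩
      · exact ⟨some ⟨⟨x, hx⟩, hxm⟩, rfl⟩
  let φ : (κ →₀ ℕ) →+ ℕ :=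
    (comb (fun k : κ => (k.1 : ℕ))).comp (Finsupp.coeFnAddHom : (κ →₀ ℕ) →+ (κ → ℕ))
  have hcomb : comb hh = (Phi m φ).comp (optEquiv κ).toAddMonoidHom := by
    ext a
    simp only [comb_apply, AddMonoidHom.coe_comp, Function.comp_apply, Phi_apply, φ]
    rw [Fintype.sum_option]
    rfl
  have hmain := presRank_Phi_le m φ hm2 (by rw [hcard]; exact he) T (by rw [hcard]; exact hT)
  obtain ⟨⟨R, hR⟩, hle⟩ := hmain
  have hne : ∃ R, GenKer (comb hh) R := by
    rw [hcomb]; exact ⟨_, hR.comp_equiv _⟩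
  constructor
  · obtain ⟨R', hR'⟩ := hne
    rw [factor_eq hinj hr]
    exact ⟨_, hR'.comp_equiv _⟩
  · rw [rho_eq hinj hr hne, hcomb]
    refine (presRank_comp_equiv_le _ _ ⟨R, hR⟩).trans ?_
    rw [hcard] at hle
    exact hle

end MPc709de
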