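import Pool.Agent.Work.MP_c709de_al.Lower
import Pool.Agent.Work.MP_c709de_al.UpperSgp

/-! The semigroup generated by an irredundant family. -/

namespace MPc709de

open Finset

section

variable {ι : Type*} [Fintype ι] [DecidableEq ι] {h : ι → ℕ}

theorem comb_single (h : ι → ℕ) (i : ι) (n : ℕ) : comb h (Pi.single i n) = n * h i := by
  rw [comb_apply, Finset.sum_eq_single i]
  · simp
  · intro b _ hb; simp [hb]
  · simp

theorem le_comb (h a : ι → ℕ) (i : ι) : a i * h i ≤ comb h a := by
  rw [comb_apply]
  exact Finset.single_le_sum (f := fun i => a i * h i) (fun _ _ => Nat.zero_le _)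
    (Finset.mem_univ i)

theorem comb_pos (hpos : ∀ i, 0 < h i) (a : ι → ℕ) (ha : comb h a = 0) : a = 0 := by
  funext i
  have := le_comb h a i
  rw [ha] at this
  have h1 : a i * h i = 0 := by omega
  rcases Nat.mul_eq_zero.1 h1 with h2 | h2
  · exact h2
  · have := hpos i; omega

theorem minGens_mrange (hpos : ∀ i, 0 < h i) (hirr : ∀ i a, comb h a = h i → a = Pi.single i 1) :
    Set.range h = minGens (AddMonoidHom.mrange (comb h)) := by
  ext n
  constructor
  · rintro ⟨i, rfl⟩
    refine ⟨⟨Pi.single i 1, by rw [comb_single, one_mul]⟩, (hpos i).ne', ?_⟩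
    rintro _ ⟨a, rfl⟩ _ ⟨b, rfl⟩ hab
    rw [← map_add] at hab
    have h1 := hirr i _ hab
    have h2 : a i + b i = 1 := by
      have := congrFun h1 i
      simpa using this
    have h3 : ∀ j, j ≠ i → a j + b j = 0 := by
      intro j hj
      have := congrFun h1 j
      simpa [Pi.single_apply, hj] using this
    rcases Nat.eq_zero_or_pos (a i) with h4 | h4
    · left
      have : a = 0 := by
        funext j
        by_cases hj : j = i
        · subst hj; exact h4
        · have := h3 j hj; simp only [Pi.zero_apply]; omega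
      rw [this, map_zero]
    · right
      have : b = 0 := by
        funext j
        by_cases hj : j = i
        · subst hj; simp only [Pi.zero_apply]; omega
        · have := h3 j hj; simp only [Pi.zero_apply]; omega
      rw [this, map_zero]
  · rintro ⟨⟨a, rfl⟩, h0, hmin⟩
    obtain ⟨i, hi⟩ : ∃ i, a i ≠ 0 := by
      by_contra hcon
      push Not at hcon
      apply h0
      have : a = 0 := funext hcon
      rw [this, map_zero]
    obtain ⟨b, hb⟩ : ∃ b : ι → ℕ, a = Pi.single i 1 + b := by
      refine ⟨fun j => a j - (Pi.single i 1 : ι → ℕ) j, ?_⟩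
      funext j
      change a j = (Pi.single i 1 : ι → ℕ) j + (a j - (Pi.single i 1 : ι → ℕ) j)
      rw [Pi.single_apply]
      split_ifs with hj
      · subst hj; omega
      · omega
    have h1 := hmin (h i) ⟨Pi.single i 1, by rw [comb_single, one_mul]⟩ (comb h b) ⟨b, rfl⟩
      (by rw [hb, map_add, comb_single, one_mul])
    rcases h1 with h1 | h1
    · exact absurd h1 (hpos i).ne'
    · refine ⟨i, ?_⟩
      rw [hb, map_add, comb_single, one_mul, h1, add_zero]

theorem h_injective (hirr : ∀ i a, comb h a = h i → a = Pi.single i 1) :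
    Function.Injective h := by
  intro i j hij
  have h1 := hirr j (Pi.single i 1) (by rw [comb_single, one_mul, hij])
  by_contra hne
  have := congrFun h1 i
  simp [hne] at this

theorem edim_mrange (hpos : ∀ i, 0 < h i) (hirr : ∀ i a, comb h a = h i → a = Pi.single i 1) :
    edim (AddMonoidHom.mrange (comb h)) = Fintype.card ι := by
  unfold edim
  rw [← minGens_mrange hpos hirr, ← Set.image_univ,
    Set.ncard_image_of_injective _ (h_injective hirr), Set.ncard_univ, Nat.card_eq_fintype_card]

theorem mult_mrange {m : ℕ} {i₀ : ι} (hm : 0 < m) (h0 : h i₀ = m) (hge : ∀ i, m ≤ h i) :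
    mult (AddMonoidHom.mrange (comb h)) = m := by
  unfold mult
  apply le_antisymm
  · apply Nat.sInf_le
    exact ⟨⟨Pi.single i₀ 1, by rw [comb_single, one_mul, h0]⟩, hm⟩
  · refine le_csInf ⟨m, ⟨Pi.single i₀ 1, by rw [comb_single, one_mul, h0]⟩, hm⟩ ?_
    rintro _ ⟨⟨a, rfl⟩, hpos⟩
    obtain ⟨i, hi⟩ : ∃ i, a i ≠ 0 := by
      by_contra hcon
      push Not at hcon
      have : a = 0 := funext hcon
      rw [this, map_zero] at hpos
      omega
    calc m ≤ h i := hge i
      _ ≤ a i * h i := Nat.le_mul_of_pos_left _ (by omega)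
      _ ≤ _ := le_comb h a i

theorem numerical_mrange {m : ℕ} {i₀ i₁ : ι} (hm : 0 < m) (h0 : h i₀ = m) {q : ℕ}
    (h1 : h i₁ = m * q + 1) : IsNumerical (AddMonoidHom.mrange (comb h)) := by
  unfold IsNumerical
  apply (Finset.finite_toSet (Finset.range (m * (m * q + 1)))).subset
  intro n hn
  rw [Finset.coe_range, Set.mem_Iio]
  by_contra hcon
  push Not at hcon
  apply hn
  have hr : n % m < m := Nat.mod_lt _ hm
  have hle : (n % m) * (m * q + 1) ≤ n := by
    calc (n % m) * (m * q + 1) ≤ m * (m * q + 1) := Nat.mul_le_mul_right _ hr.le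
      _ ≤ n := hcon
  have hmod : (n % m) * (m * q + 1) ≡ n [MOD m] := by
    have h2 : (n % m) * (m * q + 1) = n % m + m * ((n % m) * q) := by ring
    rw [h2]
    unfold Nat.ModEq
    rw [Nat.add_mul_mod_self_left, Nat.mod_mod]
  obtain ⟨s, hs⟩ := (Nat.modEq_iff_dvd' hle).1 hmod
  refine ⟨Pi.single i₁ (n % m) + Pi.single i₀ s, ?_⟩
  rw [map_add, comb_single, comb_single, h0, h1]
  have : s * m = m * s := mul_comm _ _
  omega

/-- The general lower bound for `rho`. -/
theorem rho_mrange_ge {e : ℕ} (he : 2 ≤ e) (hpos : ∀ i, 0 < h i)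
    (hirr : ∀ i a, comb h a = h i → a = Pi.single i 1) (hcard : Fintype.card ι = e + 1)
    (hnum : IsNumerical (AddMonoidHom.mrange (comb h)))
    (U : Finset (ι → ℕ)) (hU : ∀ u ∈ U, Isolated (comb h) u) (hinj : Set.InjOn (comb h) U) :
    U.card ≤ rho (AddMonoidHom.mrange (comb h)) := by
  set Γ := AddMonoidHom.mrange (comb h) with hΓ
  have hed : edim Γ = e + 1 := by rw [← hcard]; exact edim_mrange hpos hirr
  have hpow : mult Γ ≤ (mult Γ) ^ (e - 1) := by
    have := (mult_mem hnum).2
    exact Nat.le_self_pow (by omega) _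
  obtain ⟨⟨R, hR⟩, -⟩ := rho_le hnum he hed (mult Γ) hpow
  have hi := h_injective hirr
  have hr := minGens_mrange hpos hirr
  have hne : ∃ R, GenKer (comb h) R := by
    have h2 : comb h = (factor Γ).comp (expEquiv hi hr).symm.toAddMonoidHom := by
      rw [factor_eq hi hr]; ext x; simp
    rw [h2]
    exact ⟨_, hR.comp_equiv _⟩
  rw [rho_eq hi hr hne]
  apply le_presRank hne
  intro R' hR'
  exact card_le_of_isolated hU hinj hR'

end

end MPc709de
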