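import Pool.Agent.Work.MP_c709de_al.Comb

/-! Upper bound for the number of relations: a reduced Groebner basis. -/

namespace MPc709de

open Finset

/-- `(t, a) ↦ t m + φ a`. -/
noncomputable def Phi {κ : Type*} (m : ℕ) (φ : (κ →₀ ℕ) →+ ℕ) : ℕ × (κ →₀ ℕ) →+ ℕ where
  toFun p := p.1 * m + φ p.2
  map_zero' := by simp
  map_add' a b := by simp [add_mul]; ring

theorem Phi_apply {κ : Type*} (m : ℕ) (φ : (κ →₀ ℕ) →+ ℕ) (p : ℕ × (κ →₀ ℕ)) : Phi m φ p = p.1 * m + φ p.2 := rfl

section

variable {κ : Type*} [Fintype κ] [LinearOrder κ] (m : ℕ) (φ : (κ →₀ ℕ) →+ ℕ)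

/-- the comparison key: value first, then lexicographic order. -/
noncomputable def key (a : κ →₀ ℕ) : ℕ ×ₗ (MonomialOrder.lex (σ := κ)).syn :=
  toLex (φ a, (MonomialOrder.lex (σ := κ)).toSyn a)

/-- the term order -/
def prec (a b : κ →₀ ℕ) : Prop := key φ a < key φ b

theorem prec_iff (a b : κ →₀ ℕ) : prec φ a b ↔ φ a < φ b ∨
    (φ a = φ b ∧ (MonomialOrder.lex (σ := κ)).toSyn a < (MonomialOrder.lex (σ := κ)).toSyn b) := by
  unfold prec key
  rw [Prod.Lex.toLex_lt_toLex]

theorem key_inj {a b : κ →₀ ℕ} (h : key φ a = key φ b) : a = b := by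
  unfold key at h
  have := congrArg (fun x => (ofLex x).2) h
  simpa using this

theorem prec_trichotomy (a b : κ →₀ ℕ) : prec φ a b ∨ a = b ∨ prec φ b a := by
  rcases lt_trichotomy (key φ a) (key φ b) with h | h | h
  · exact Or.inl h
  · exact Or.inr (Or.inl (key_inj φ h))
  · exact Or.inr (Or.inr h)

theorem prec_wf : WellFounded (prec φ) := InvImage.wf (key φ) wellFounded_lt

theorem prec_add {a b : κ →₀ ℕ} (c : κ →₀ ℕ) (h : prec φ a b) : prec φ (a + c) (b + c) := by
  rw [prec_iff] at h ⊢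
  simp only [map_add]
  rcases h with h | ⟨h1, h2⟩
  · left; omega
  · right; exact ⟨by omega, by simpa using h2⟩

theorem prec_irrefl (a : κ →₀ ℕ) : ¬ prec φ a a := lt_irrefl _

theorem prec_trans {a b c : κ →₀ ℕ} (h : prec φ a b) (h' : prec φ b c) : prec φ a c :=
  lt_trans (a := key φ a) h h'

/-- standard elements: smallest in their class modulo `m`. -/
def Std (a : κ →₀ ℕ) : Prop := ∀ b, φ b ≡ φ a [MOD m] → ¬ prec φ b a

theorem Std.of_add {a c : κ →₀ ℕ} (h : Std m φ (a + c)) : Std m φ a := by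
  intro b hb hba
  refine h (b + c) ?_ (prec_add φ c hba)
  rw [map_add, map_add]
  exact hb.add_right _

theorem Std.of_le {a b : κ →₀ ℕ} (h : Std m φ b) (hab : a ≤ b) : Std m φ a := by
  obtain ⟨c, rfl⟩ := exists_add_of_le hab
  exact h.of_add

theorem Std.unique {a b : κ →₀ ℕ} (ha : Std m φ a) (hb : Std m φ b)
    (h : φ a ≡ φ b [MOD m]) : a = b := by
  rcases prec_trichotomy φ a b with h1 | h1 | h1
  · exact absurd h1 (hb a h)
  · exact h1
  · exact absurd h1 (ha b h.symm)

theorem exists_nf (a : κ →₀ ℕ) : ∃ v, Std m φ v ∧ φ v ≡ φ a [MOD m] ∧ (v = a ∨ prec φ v a) := by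
  induction a using (prec_wf φ).induction with
  | _ a ih =>
    by_cases h : Std m φ a
    · exact ⟨a, h, Nat.ModEq.refl _, Or.inl rfl⟩
    · unfold Std at h
      push Not at h
      obtain ⟨b, hb, hba⟩ := h
      obtain ⟨v, hv, hvb, hvb'⟩ := ih b hba
      refine ⟨v, hv, hvb.trans hb, Or.inr ?_⟩
      rcases hvb' with rfl | h
      · exact hba
      · exact prec_trans φ h hba

/-- the normal form -/
noncomputable def nf (a : κ →₀ ℕ) : κ →₀ ℕ := (exists_nf m φ a).choose

theorem nf_std (a : κ →₀ ℕ) : Std m φ (nf m φ a) := (exists_nf m φ a).choose_spec.1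
theorem nf_modEq (a : κ →₀ ℕ) : φ (nf m φ a) ≡ φ a [MOD m] := (exists_nf m φ a).choose_spec.2.1
theorem nf_le (a : κ →₀ ℕ) : φ (nf m φ a) ≤ φ a := by
  rcases (exists_nf m φ a).choose_spec.2.2 with h | h
  · have : nf m φ a = a := h
    rw [this]
  · rw [prec_iff] at h
    have : nf m φ a = (exists_nf m φ a).choose := rfl
    rw [this]; omega

theorem nf_eq_of {a v : κ →₀ ℕ} (hv : Std m φ v) (h : φ v ≡ φ a [MOD m]) : nf m φ a = v :=
  (nf_std m φ a).unique m φ hv ((nf_modEq m φ a).trans h.symm)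

theorem nf_prec {a : κ →₀ ℕ} (h : ¬ Std m φ a) : prec φ (nf m φ a) a := by
  rcases (exists_nf m φ a).choose_spec.2.2 with h' | h'
  · have h2 : nf m φ a = a := h'
    exact absurd (h2 ▸ nf_std m φ a) h
  · exact h'

theorem exists_quot (a : κ →₀ ℕ) : ∃ t, φ a = t * m + φ (nf m φ a) := by
  have h1 := nf_modEq m φ a
  have h2 := nf_le m φ a
  have h3 : m ∣ φ a - φ (nf m φ a) := (Nat.modEq_iff_dvd' h2).1 h1
  obtain ⟨t, ht⟩ := h3
  exact ⟨t, by rw [mul_comm]; omega⟩

/-- minimal non-standard elements. -/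
def MinNon : Set (κ →₀ ℕ) := {u | ¬ Std m φ u ∧ ∀ i, u i ≠ 0 → Std m φ (u - Finsupp.single i 1)}

theorem std_zero : Std m φ (0 : κ →₀ ℕ) := by
  intro b _ h
  rw [prec_iff] at h
  simp only [map_zero, not_lt_zero, false_or] at h
  have h2 : (MonomialOrder.lex (σ := κ)).toSyn b ≥ 0 := MonomialOrder.zero_le _ _
  exact absurd h.2 (not_lt.2 h2)

theorem MinNon.antichain {u v : κ →₀ ℕ} (hu : u ∈ MinNon m φ) (hv : v ∈ MinNon m φ)
    (h : u ≤ v) : u = v := by
  by_contra hne
  have hlt : ∃ i, u i < v i := by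
    by_contra hcon
    push Not at hcon
    exact hne (le_antisymm h (fun i => hcon i))
  obtain ⟨i, hi⟩ := hlt
  apply hu.1
  apply (hv.2 i (by omega)).of_le
  intro j
  have := h j
  simp only [Finsupp.coe_tsub, Pi.sub_apply, Finsupp.single_apply]
  split_ifs with hij
  · subst hij; omega
  · omega

theorem exists_minNon_le {a : κ →₀ ℕ} (h : ¬ Std m φ a) : ∃ u ∈ MinNon m φ, u ≤ a := by
  induction hn : a.sum (fun _ n => n) using Nat.strong_induction_on generalizing a with
  | _ n ih =>
    by_cases h1 : ∀ i, a i ≠ 0 → Std m φ (a - Finsupp.single i 1)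
    · exact ⟨a, ⟨h, h1⟩, le_rfl⟩
    · push Not at h1
      obtain ⟨i, hi, hs⟩ := h1
      have hle : Finsupp.single i 1 ≤ a := by
        rw [Finsupp.single_le_iff]; omega
      have hsum : (a - Finsupp.single i 1).sum (fun _ n => n) + 1 = a.sum (fun _ n => n) := by
        conv_rhs => rw [← tsub_add_cancel_of_le hle]
        rw [Finsupp.sum_add_index' (by simp) (by intros; rfl)]
        simp
      obtain ⟨u, hu, hua⟩ := ih _ (by omega) hs rfl
      exact ⟨u, hu, hua.trans tsub_le_self⟩

/-- the relation attached to `u` -/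
noncomputable def relOf (u : κ →₀ ℕ) : (ℕ × (κ →₀ ℕ)) × (ℕ × (κ →₀ ℕ)) :=
  ((0, u), ((exists_quot m φ u).choose, nf m φ u))

theorem genKer_relOf [DecidableEq ((ℕ × (κ →₀ ℕ)) × (ℕ × (κ →₀ ℕ)))] (hm : 0 < m)
    (U : Finset (κ →₀ ℕ)) (hU : ∀ u, u ∈ U ↔ u ∈ MinNon m φ) :
    GenKer (Phi m φ) (U.image (relOf m φ)) := by
  unfold GenKer
  set c := addConGen (fun a b => (a, b) ∈ U.image (relOf m φ)) with hc
  have hle : c ≤ AddCon.ker (Phi m φ) := by
    rw [hc, AddCon.addConGen_le]
    intro a b hab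
    simp only [Finset.mem_image] at hab
    obtain ⟨u, _, hu⟩ := hab
    have h1 : a = (0, u) := congrArg Prod.fst hu.symm
    have h2 : b = ((exists_quot m φ u).choose, nf m φ u) := congrArg Prod.snd hu.symm
    rw [AddCon.ker_rel, h1, h2, Phi_apply, Phi_apply]
    have := (exists_quot m φ u).choose_spec
    simp only [zero_mul, zero_add]
    exact this
  have key : ∀ a t, ∃ s, c (t, a) (t + s, nf m φ a) := by
    intro a
    induction a using (prec_wf φ).induction with
    | _ a ih =>
      intro t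
      by_cases h : Std m φ a
      · refine ⟨0, ?_⟩
        rw [nf_eq_of m φ h (Nat.ModEq.refl _), add_zero]
        exact c.refl _
      · obtain ⟨u, hu, hua⟩ := exists_minNon_le m φ h
        obtain ⟨d, rfl⟩ := exists_add_of_le hua
        have h1 : c (0, u) ((exists_quot m φ u).choose, nf m φ u) := by
          rw [hc]
          apply AddConGen.Rel.of
          exact Finset.mem_image.2 ⟨u, (hU u).2 hu, rfl⟩
        have h2 : c (t, u + d) ((exists_quot m φ u).choose + t, nf m φ u + d) := by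
          have := c.add h1 (c.refl (t, d))
          simpa using this
        have h3 : prec φ (nf m φ u + d) (u + d) := prec_add φ d (nf_prec m φ hu.1)
        obtain ⟨s, hs⟩ := ih _ h3 ((exists_quot m φ u).choose + t)
        have h4 : nf m φ (nf m φ u + d) = nf m φ (u + d) := by
          apply nf_eq_of m φ (nf_std m φ _)
          refine (nf_modEq m φ (u + d)).trans ?_
          rw [map_add, map_add]
          exact ((nf_modEq m φ u).symm).add_right _
        rw [h4] at hs
        refine ⟨(exists_quot m φ u).choose + s, ?_⟩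
        have h5 := c.trans h2 hs
        have h6 : t + ((exists_quot m φ u).choose + s) = (exists_quot m φ u).choose + t + s := by
          ring
        rw [h6]
        exact h5
  apply le_antisymm hle
  rintro ⟨t, a⟩ ⟨t', a'⟩ h
  rw [AddCon.ker_rel] at h
  obtain ⟨s, hs⟩ := key a t
  obtain ⟨s', hs'⟩ := key a' t'
  have h1 : Phi m φ (t, a) = Phi m φ (t + s, nf m φ a) := hle hs
  have h2 : Phi m φ (t', a') = Phi m φ (t' + s', nf m φ a') := hle hs'
  have h3 : φ a ≡ φ a' [MOD m] := by
    rw [Phi_apply, Phi_apply] at h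
    have := congrArg (· % m) h
    simpa [Nat.ModEq] using this
  have h4 : nf m φ a = nf m φ a' := nf_eq_of m φ (nf_std m φ a') ((nf_modEq m φ a').trans h3.symm)
  have h5 : t + s = t' + s' := by
    rw [h1, h2, Phi_apply, Phi_apply, h4] at h
    have : (t + s) * m = (t' + s') * m := by simpa using h
    exact Nat.eq_of_mul_eq_mul_right hm this
  refine c.trans hs (c.trans ?_ (c.symm hs'))
  rw [h4, h5]
  exact c.refl _

theorem std_injOn : Set.InjOn (fun a : κ →₀ ℕ => φ a % m) {a | Std m φ a} := by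
  intro a ha b hb h
  exact ha.unique m φ hb h

theorem std_finite (hm : 0 < m) : {a : κ →₀ ℕ | Std m φ a}.Finite := by
  apply Set.Finite.of_injOn (t := (Finset.range m : Set ℕ)) _ (std_injOn m φ)
    (Finset.finite_toSet _)
  intro a _
  simp [Nat.mod_lt _ hm]

theorem std_card (hm : 0 < m) : (std_finite m φ hm).toFinset.card ≤ m := by
  have := Finset.card_le_card_of_injOn (s := (std_finite m φ hm).toFinset) (t := Finset.range m)
    (fun a => φ a % m) (by intro a _; simp [Nat.mod_lt _ hm]) (by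
      intro a ha b hb h
      exact std_injOn m φ (by simpa using ha) (by simpa using hb) h)
  simpa using this

theorem minNon_finite (hm : 0 < m) : (MinNon m φ).Finite := by
  have h1 : (⋃ i : κ, (fun a : κ →₀ ℕ => a + Finsupp.single i 1) '' {a | Std m φ a}).Finite :=
    Set.finite_iUnion (fun i => (std_finite m φ hm).image _)
  apply h1.subset
  intro u hu
  have hne : u ≠ 0 := by
    rintro rfl
    exact hu.1 (std_zero m φ)
  obtain ⟨i, hi⟩ : ∃ i, u i ≠ 0 := by
    by_contra hcon
    push Not at hcon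
    exact hne (Finsupp.ext hcon)
  rw [Set.mem_iUnion]
  refine ⟨i, u - Finsupp.single i 1, hu.2 i hi, ?_⟩
  have hle : Finsupp.single i 1 ≤ u := by
    rw [Finsupp.single_le_iff]; omega
  exact tsub_add_cancel_of_le hle

theorem modEq_sub {a b g : κ →₀ ℕ} (hga : g ≤ a) (hgb : g ≤ b) (h : φ a ≡ φ b [MOD m]) :
    φ (a - g) ≡ φ (b - g) [MOD m] := by
  have h1 : φ a = φ (a - g) + φ g := by rw [← map_add, tsub_add_cancel_of_le hga]
  have h2 : φ b = φ (b - g) + φ g := by rw [← map_add, tsub_add_cancel_of_le hgb]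
  rw [h1, h2] at h
  exact Nat.ModEq.add_right_cancel' _ h

/-- at most one minimal non-standard element has full support. -/
theorem full_unique {u v : κ →₀ ℕ} (hu : u ∈ MinNon m φ) (hv : v ∈ MinNon m φ)
    (hu' : ∀ i, u i ≠ 0) (hv' : ∀ i, v i ≠ 0) [Nonempty κ] : u = v := by
  -- the normal form of a full support element is `0`
  have hz : ∀ {w : κ →₀ ℕ}, w ∈ MinNon m φ → (∀ i, w i ≠ 0) → nf m φ w = 0 := by
    intro w hw hw'
    by_contra hne
    obtain ⟨i, hi⟩ : ∃ i, nf m φ w i ≠ 0 := by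
      by_contra hcon
      push Not at hcon
      exact hne (Finsupp.ext hcon)
    have h1 : Std m φ (w - Finsupp.single i 1) := hw.2 i (hw' i)
    have h2 : Std m φ (nf m φ w - Finsupp.single i 1) :=
      (nf_std m φ w).of_le m φ tsub_le_self
    have hle1 : Finsupp.single i 1 ≤ w := by
      rw [Finsupp.single_le_iff]; exact Nat.one_le_iff_ne_zero.2 (hw' i)
    have hle2 : Finsupp.single i 1 ≤ nf m φ w := by
      rw [Finsupp.single_le_iff]; omega
    have h3 : φ (w - Finsupp.single i 1) ≡ φ (nf m φ w - Finsupp.single i 1) [MOD m] :=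
      modEq_sub m φ hle1 hle2 (nf_modEq m φ w).symm
    have h5 := h1.unique m φ h2 h3
    have h6 : w = nf m φ w := by
      calc w = (w - Finsupp.single i 1) + Finsupp.single i 1 := (tsub_add_cancel_of_le hle1).symm
        _ = (nf m φ w - Finsupp.single i 1) + Finsupp.single i 1 := by rw [h5]
        _ = nf m φ w := tsub_add_cancel_of_le hle2
    apply hw.1
    rw [h6]; exact nf_std m φ w
  have hclass : φ u ≡ φ v [MOD m] := by
    have h1 := nf_modEq m φ u
    have h2 := nf_modEq m φ v
    rw [hz hu hu'] at h1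
    rw [hz hv hv'] at h2
    exact h1.symm.trans h2
  by_contra hne
  -- subtract the infimum
  set g := u ⊓ v with hg
  have hgu : g ≤ u := inf_le_left
  have hgv : g ≤ v := inf_le_right
  have hgpos : ∀ i, g i ≠ 0 := by
    intro i
    have := hu' i
    have := hv' i
    rw [hg, Finsupp.inf_apply]
    rcases min_choice (u i) (v i) with h | h
    · change min (u i) (v i) ≠ 0; omega
    · change min (u i) (v i) ≠ 0; omega
  obtain ⟨i₀⟩ := (inferInstance : Nonempty κ)
  have hs : ∀ {w : κ →₀ ℕ}, w ∈ MinNon m φ → (∀ i, w i ≠ 0) → g ≤ w → Std m φ (w - g) := by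
    intro w hw hw' hgw
    apply (hw.2 i₀ (hw' i₀)).of_le
    intro j
    have h1 := hgpos i₀
    simp only [Finsupp.coe_tsub, Pi.sub_apply, Finsupp.single_apply]
    split_ifs with h
    · subst h; omega
    · omega
  have h1 : φ (u - g) ≡ φ (v - g) [MOD m] := modEq_sub m φ hgu hgv hclass
  have h2 := (hs hu hu' hgu).unique m φ (hs hv hv' hgv) h1
  apply hne
  calc u = (u - g) + g := (tsub_add_cancel_of_le hgu).symm
    _ = (v - g) + g := by rw [h2]
    _ = v := tsub_add_cancel_of_le hgv

end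

end MPc709de
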